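import Mathlib

/-! Birkhoff-type cone contraction for sequences of matrices. -/

set_option autoImplicit false
set_option linter.unusedSectionVars false

namespace Pool.Agent.H649Z.Cox

open Matrix Filter Topology

variable {ι : Type} [Fintype ι] [DecidableEq ι]

structure IsCone (C : Set (ι → ℝ)) : Prop where
  zero_mem : (0 : ι → ℝ) ∈ C
  add_mem : ∀ u ∈ C, ∀ v ∈ C, u + v ∈ C
  smul_mem : ∀ t : ℝ, 0 ≤ t → ∀ u ∈ C, t • u ∈ C

def Rel (C : Set (ι → ℝ)) (u v : ι → ℝ) (ε : ℝ) : Prop :=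
  ∃ m : ℝ, 0 < m ∧ v - m • u ∈ C ∧ (m * (1 + ε)) • u - v ∈ C

def FD (T : Matrix ι ι ℝ) (C' C : Set (ι → ℝ)) (K : ℝ) : Prop :=
  ∃ e ∈ C, ∀ v ∈ C', ∃ n : ℝ, 0 ≤ n ∧ T *ᵥ v - n • e ∈ C ∧ (K * n) • e - T *ᵥ v ∈ C ∧
    (n = 0 → v = 0)

def Maps (T : Matrix ι ι ℝ) (C' C : Set (ι → ℝ)) : Prop := ∀ v ∈ C', T *ᵥ v ∈ C

theorem Rel.map {T : Matrix ι ι ℝ} {C' C : Set (ι → ℝ)} (h : Maps T C' C) {u v : ι → ℝ} {ε : ℝ}
    (hr : Rel C' u v ε) : Rel C (T *ᵥ u) (T *ᵥ v) ε := by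
  obtain ⟨m, hm, h1, h2⟩ := hr
  refine ⟨m, hm, ?_, ?_⟩
  · have := h _ h1
    rwa [mulVec_sub, mulVec_smul] at this
  · have := h _ h2
    rwa [mulVec_sub, mulVec_smul] at this

theorem FD.maps {T : Matrix ι ι ℝ} {C' C : Set (ι → ℝ)} {K : ℝ} (hC : IsCone C)
    (h : FD T C' C K) : Maps T C' C := by
  obtain ⟨e, he, h⟩ := h
  intro v hv
  obtain ⟨n, hn, h1, -, -⟩ := h v hv
  have := hC.add_mem _ h1 _ (hC.smul_mem n hn e he)
  simpa using this

theorem FD.base {T : Matrix ι ι ℝ} {C' C : Set (ι → ℝ)} {K : ℝ} (hK : 1 ≤ K) (hC : IsCone C)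
    (h : FD T C' C K) {u v : ι → ℝ} (hu : u ∈ C') (hv : v ∈ C') (hu0 : u ≠ 0) (hv0 : v ≠ 0) :
    Rel C (T *ᵥ u) (T *ᵥ v) (K ^ 2 - 1) := by
  obtain ⟨e, he, h⟩ := h
  obtain ⟨n, hn, h1, h2, h3⟩ := h u hu
  obtain ⟨n', hn', h1', h2', h3'⟩ := h v hv
  have hn0 : 0 < n := lt_of_le_of_ne hn (fun h => hu0 (h3 h.symm))
  have hn0' : 0 < n' := lt_of_le_of_ne hn' (fun h => hv0 (h3' h.symm))
  have hK0 : 0 < K := by linarith
  refine ⟨n' / (K * n), by positivity, ?_, ?_⟩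
  · have := hC.add_mem _ h1' _ (hC.smul_mem (n' / (K * n)) (by positivity) _ h2)
    convert this using 1
    ext i
    simp only [Pi.sub_apply, Pi.add_apply, Pi.smul_apply, smul_eq_mul]
    field_simp
    ring
  · have := hC.add_mem _ h2' _ (hC.smul_mem (K * n' / n) (by positivity) _ h1)
    convert this using 1
    ext i
    simp only [Pi.sub_apply, Pi.add_apply, Pi.smul_apply, smul_eq_mul]
    field_simp
    ring

theorem FD.contract {T : Matrix ι ι ℝ} {C' C : Set (ι → ℝ)} {K : ℝ} (hK : 1 ≤ K) (hC : IsCone C)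
    (h : FD T C' C K) {u v : ι → ℝ} {ε : ℝ} (hε : 0 ≤ ε) (hr : Rel C' u v ε) :
    Rel C (T *ᵥ u) (T *ᵥ v) ((1 - 1 / K) * ε) := by
  have hmaps := h.maps hC
  obtain ⟨e, he, h⟩ := h
  obtain ⟨m, hm, hx, hy⟩ := hr
  obtain ⟨n, hn, h1, h2, h3⟩ := h _ hx
  obtain ⟨n', hn', h1', h2', h3'⟩ := h _ hy
  have hK0 : 0 < K := by linarith
  have hθ : 0 ≤ 1 - 1 / K := by
    have : 1 / K ≤ 1 := by rw [div_le_one hK0]; exact hK
    linarith
  have hTx := hmaps _ hx
  have hTy := hmaps _ hy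
  rw [mulVec_sub, mulVec_smul] at h1 h2 h1' h2' hTx hTy
  rcases (add_nonneg hn hn').eq_or_lt with hs | hs
  · have e1 : n = 0 := by linarith
    have e2 : n' = 0 := by linarith
    have hx0 := congrArg (fun w => T *ᵥ w) (h3 e1)
    have hy0 := congrArg (fun w => T *ᵥ w) (h3' e2)
    simp only [mulVec_sub, mulVec_smul, mulVec_zero] at hx0 hy0
    refine ⟨m, hm, ?_, ?_⟩
    · rw [hx0]; exact hC.zero_mem
    · convert hC.zero_mem using 1
      ext i
      have a := congrFun hx0 i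
      have b := congrFun hy0 i
      simp only [Pi.sub_apply, Pi.smul_apply, smul_eq_mul, Pi.zero_apply] at a b ⊢
      have c : m * ε * (T *ᵥ u) i = 0 := by linarith
      have : m * (1 + (1 - 1 / K) * ε) * (T *ᵥ u) i
        = m * (T *ᵥ u) i + (1 - 1 / K) * (m * ε * (T *ᵥ u) i) := by ring
      rw [this, c]; linarith
  · have hz := hC.add_mem _ h2 _ h2'
    have hTz := hC.add_mem _ hTx _ hTy
    refine ⟨m * (1 + n / (K * (n + n')) * ε), by positivity, ?_, ?_⟩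
    · have := hC.add_mem _ h1 _ (hC.smul_mem (n / (K * (n + n'))) (by positivity) _ hz)
      convert this using 1
      ext i
      simp only [Pi.sub_apply, Pi.add_apply, Pi.smul_apply, smul_eq_mul]
      field_simp
      ring
    · have := hC.add_mem _ (hC.add_mem _ h1' _
        (hC.smul_mem (n' / (K * (n + n'))) (by positivity) _ hz)) _
        (hC.smul_mem (n / (K * (n + n')) * (1 - 1 / K) * ε) (by positivity) _ hTz)
      convert this using 1
      ext i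
      simp only [Pi.sub_apply, Pi.add_apply, Pi.smul_apply, smul_eq_mul]
      field_simp
      ring

/-- vectors whose sup norm is at most `c` times their coordinate sum -/
def topCone (c : ℝ) : Set (ι → ℝ) := {v | ‖v‖ ≤ c * ∑ i, v i}

theorem isCone_top (c : ℝ) : IsCone (topCone (ι := ι) c) where
  zero_mem := by simp [topCone]
  add_mem := by
    intro u hu v hv
    simp only [topCone, Set.mem_ofPred_eq, Pi.add_apply, Finset.sum_add_distrib] at *
    have := norm_add_le u v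
    linarith
  smul_mem := by
    intro t ht u hu
    simp only [topCone, Set.mem_ofPred_eq, Pi.smul_apply, smul_eq_mul, ← Finset.mul_sum] at *
    rw [norm_smul, Real.norm_of_nonneg ht]
    nlinarith

theorem sum_pos_of_top {c : ℝ} (hc : 0 < c) {u : ι → ℝ} (hu : u ∈ topCone c) (h0 : u ≠ 0) :
    0 < ∑ i, u i := by
  have h1 : 0 < ‖u‖ := norm_pos_iff.2 h0
  have h2 : ‖u‖ ≤ c * ∑ i, u i := hu
  by_contra h
  push Not at h
  nlinarith

noncomputable def nrm (u : ι → ℝ) : ι → ℝ := (∑ i, u i)⁻¹ • u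

theorem Rel.dist_le {c : ℝ} (hc : 0 < c) {u v : ι → ℝ} {ε : ℝ} (hε : 0 ≤ ε)
    (hu : u ∈ topCone c) (hu0 : u ≠ 0)
    (hr : Rel (topCone c) u v ε) : ‖nrm v - nrm u‖ ≤ 2 * c * ε := by
  obtain ⟨m, hm, hx, hy⟩ := hr
  have hsu := sum_pos_of_top hc hu hu0
  have hx' : ‖v - m • u‖ ≤ c * (∑ i, v i - m * ∑ i, u i) := by
    have : ‖v - m • u‖ ≤ c * ∑ i, (v - m • u) i := hx
    simpa [Finset.sum_sub_distrib, ← Finset.mul_sum] using this
  have hy' : ‖(m * (1 + ε)) • u - v‖ ≤ c * (m * (1 + ε) * ∑ i, u i - ∑ i, v i) := by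
    have : ‖(m * (1 + ε)) • u - v‖ ≤ c * ∑ i, ((m * (1 + ε)) • u - v) i := hy
    simpa [Finset.sum_sub_distrib, ← Finset.mul_sum] using this
  have hu' : ‖u‖ ≤ c * ∑ i, u i := hu
  set a := ∑ i, u i with ha
  set b := ∑ i, v i with hb
  have h1 : 0 ≤ b - m * a := by
    by_contra h
    push Not at h
    have := norm_nonneg (v - m • u)
    nlinarith
  have h2 : 0 ≤ m * (1 + ε) * a - b := by
    by_contra h
    push Not at h
    have := norm_nonneg ((m * (1 + ε)) • u - v)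
    nlinarith
  have hma : 0 < m * a := by positivity
  have hb0 : 0 < b := by linarith
  have key : nrm v - nrm u = b⁻¹ • (v - m • u) - ((b - m * a) / (a * b)) • u := by
    ext i
    simp only [nrm, Pi.sub_apply, Pi.smul_apply, smul_eq_mul, ← ha, ← hb]
    field_simp
    ring
  have h3 : b - m * a ≤ ε * b := by nlinarith
  rw [key]
  calc ‖b⁻¹ • (v - m • u) - ((b - m * a) / (a * b)) • u‖
      ≤ ‖b⁻¹ • (v - m • u)‖ + ‖((b - m * a) / (a * b)) • u‖ := norm_sub_le _ _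
    _ = b⁻¹ * ‖v - m • u‖ + ((b - m * a) / (a * b)) * ‖u‖ := by
        rw [norm_smul, norm_smul, Real.norm_of_nonneg (by positivity),
          Real.norm_of_nonneg (by positivity)]
    _ ≤ b⁻¹ * (c * (ε * b)) + ((ε * b) / (a * b)) * (c * a) := by
        gcongr
        exact hx'.trans (by gcongr)
    _ = 2 * c * ε := by field_simp; ring

theorem core (C : ℕ → Set (ι → ℝ)) (T : ℕ → Matrix ι ι ℝ) (γ : ℕ → ℕ → ι → ℝ) (K c : ℝ)
    (hK : 1 ≤ K) (hc : 0 < c) (hC : ∀ j, IsCone (C j)) (h0 : C 0 = topCone c)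
    (hγ : ∀ j k, j < k → γ j k = T j *ᵥ γ (j + 1) k)
    (H1 : ∀ j, Maps (T j) (C (j + 1)) (C j))
    (H2 : ∀ N, ∃ j, N ≤ j ∧ FD (T j * T (j + 1)) (C (j + 2)) (C j) K)
    (H3 : ∀ j, ∃ N, ∀ k, N ≤ k → γ j k ∈ C j ∧ γ j k ≠ 0) :
    ∃ x, Tendsto (fun k => nrm (γ 0 k)) atTop (𝓝 x) := by
  have hK0 : 0 < K := by linarith
  have hθ0 : 0 ≤ 1 - 1 / K := by
    have : 1 / K ≤ 1 := by rw [div_le_one hK0]; exact hK
    linarith
  have hθ1 : 1 - 1 / K < 1 := by
    have : 0 < 1 / K := by positivity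
    linarith
  have hK2 : 0 ≤ K ^ 2 - 1 := by nlinarith
  have descend : ∀ (d j k l : ℕ) (ε : ℝ), j + d ≤ k → j + d ≤ l →
      Rel (C (j + d)) (γ (j + d) k) (γ (j + d) l) ε → Rel (C j) (γ j k) (γ j l) ε := by
    intro d
    induction d with
    | zero => intro j k l ε _ _ h; simpa using h
    | succ d ih =>
      intro j k l ε hk hl h
      have h' := ih (j + 1) k l ε (by omega) (by omega) (by
        have e : j + 1 + d = j + (d + 1) := by omega
        rw [e]; exact h)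
      rw [hγ j k (by omega), hγ j l (by omega)]
      exact h'.map (H1 j)
  have two : ∀ j k, j + 2 ≤ k → γ j k = (T j * T (j + 1)) *ᵥ γ (j + 2) k := by
    intro j k hk
    rw [hγ j k (by omega), hγ (j + 1) k (by omega), mulVec_mulVec]
  have main : ∀ n j : ℕ, ∃ N, ∀ k l, N ≤ k → N ≤ l →
      Rel (C j) (γ j k) (γ j l) ((1 - 1 / K) ^ n * (K ^ 2 - 1)) := by
    intro n
    induction n with
    | zero =>
      intro j
      obtain ⟨j', hj, hF⟩ := H2 j
      obtain ⟨N, hN⟩ := H3 (j' + 2)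
      refine ⟨max N (j' + 2), fun k l hk hl => ?_⟩
      obtain ⟨d, rfl⟩ := Nat.exists_eq_add_of_le hj
      have hk1 := le_of_max_le_left hk
      have hk2 := le_of_max_le_right hk
      have hl1 := le_of_max_le_left hl
      have hl2 := le_of_max_le_right hl
      apply descend d j k l _ (by omega) (by omega)
      rw [two _ k hk2, two _ l hl2, pow_zero, one_mul]
      exact hF.base hK (hC _) (hN k hk1).1 (hN l hl1).1 (hN k hk1).2 (hN l hl1).2
    | succ n ih =>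
      intro j
      obtain ⟨j', hj, hF⟩ := H2 j
      obtain ⟨N, hN⟩ := ih (j' + 2)
      refine ⟨max N (j' + 2), fun k l hk hl => ?_⟩
      obtain ⟨d, rfl⟩ := Nat.exists_eq_add_of_le hj
      have hk1 := le_of_max_le_left hk
      have hk2 := le_of_max_le_right hk
      have hl1 := le_of_max_le_left hl
      have hl2 := le_of_max_le_right hl
      apply descend d j k l _ (by omega) (by omega)
      rw [two _ k hk2, two _ l hl2, pow_succ', mul_assoc]
      exact hF.contract hK (hC _) (by positivity) (hN k l hk1 hl1)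
  apply cauchySeq_tendsto_of_complete
  rw [Metric.cauchySeq_iff]
  intro ε hε
  have ht : Tendsto (fun n : ℕ => 2 * c * ((1 - 1 / K) ^ n * (K ^ 2 - 1))) atTop (𝓝 0) := by
    have := ((tendsto_pow_atTop_nhds_zero_of_lt_one hθ0 hθ1).mul_const (K ^ 2 - 1)).const_mul
      (2 * c)
    simpa using this
  obtain ⟨n, hn⟩ := (ht.eventually (gt_mem_nhds hε)).exists
  obtain ⟨N, hN⟩ := main n 0
  obtain ⟨N', hN'⟩ := H3 0
  refine ⟨max N N', fun k hk l hl => ?_⟩
  have h1 := hN l k (le_of_max_le_left hl) (le_of_max_le_left hk)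
  have h2 := hN' l (le_of_max_le_right hl)
  rw [h0] at h1 h2
  rw [dist_eq_norm]
  exact (h1.dist_le hc (by positivity) h2.1 h2.2).trans_lt hn

theorem existsUnique_accPt {x : ι → ℝ} {b : ℕ → ι → ℝ} (ht : Tendsto b atTop (𝓝 x))
    (hne : ∀ N, ∃ k, N ≤ k ∧ b k ≠ b (k + 1)) :
    ∃! y, AccPt y (𝓟 (Set.range b)) := by
  refine ⟨x, ?_, ?_⟩
  · show AccPt x (𝓟 (Set.range b))
    rw [accPt_iff_frequently]
    apply ht.frequently
    rw [frequently_atTop]
    intro N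
    obtain ⟨k, hk, h⟩ := hne N
    by_cases h1 : b k = x
    · exact ⟨k + 1, by omega, fun h2 => h (h1.trans h2.symm), ⟨_, rfl⟩⟩
    · exact ⟨k, hk, h1, ⟨_, rfl⟩⟩
  · intro y hy
    by_contra hxy
    obtain ⟨U, V, hU, hV, hyU, hxV, hUV⟩ := t2_separation hxy
    obtain ⟨N, hN⟩ := eventually_atTop.1 (ht.eventually (hV.mem_nhds hxV))
    have hfin : (U ∩ Set.range b).Finite := by
      apply ((Set.finite_lt_nat N).image b).subset
      rintro z ⟨hz, k, rfl⟩
      refine ⟨k, ?_, rfl⟩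
      by_contra hk
      exact Set.disjoint_left.1 hUV hz (hN k (not_lt.1 hk))
    have := hy.nhds_inter (hU.mem_nhds hyU)
    exact (Set.Infinite.of_accPt this) hfin

/-- the cone spanned by the columns of a matrix -/
def cone {κ : Type} [Fintype κ] (G : Matrix ι κ ℝ) : Set (ι → ℝ) :=
  {v | ∃ x : κ → ℝ, (∀ l, 0 ≤ x l) ∧ v = G *ᵥ x}

theorem isCone_cone {κ : Type} [Fintype κ] (G : Matrix ι κ ℝ) : IsCone (cone G) where
  zero_mem := ⟨0, fun _ => le_rfl, by simp⟩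
  add_mem := by
    rintro _ ⟨x, hx, rfl⟩ _ ⟨y, hy, rfl⟩
    exact ⟨x + y, fun l => add_nonneg (hx l) (hy l), by rw [mulVec_add]⟩
  smul_mem := by
    rintro t ht _ ⟨x, hx, rfl⟩
    exact ⟨t • x, fun l => mul_nonneg ht (hx l), by rw [mulVec_smul]⟩

theorem maps_of_cert {κ : Type} [Fintype κ] {T : Matrix ι ι ℝ} {G' G : Matrix ι κ ℝ}
    {A : Matrix κ κ ℝ} {lam : ℝ} (hl : 0 < lam) (hA : ∀ i j, 0 ≤ A i j)
    (h : lam • (T * G') = G * A) : Maps T (cone G') (cone G) := by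
  rintro _ ⟨x, hx, rfl⟩
  refine ⟨lam⁻¹ • (A *ᵥ x), fun l => ?_, ?_⟩
  · apply mul_nonneg (by positivity)
    exact Finset.sum_nonneg fun j _ => mul_nonneg (hA l j) (hx j)
  · rw [mulVec_smul, mulVec_mulVec, mulVec_mulVec, ← h, smul_mulVec, smul_smul,
      inv_mul_cancel₀ hl.ne', one_smul]

theorem fd_of_cert {κ : Type} [Fintype κ] {T : Matrix ι ι ℝ} {G' G : Matrix ι κ ℝ}
    {A : Matrix κ κ ℝ} {lam K : ℝ} (hl : 0 < lam) (hA : ∀ i j, 1 ≤ A i j ∧ A i j ≤ K)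
    (h : lam • (T * G') = G * A) : FD T (cone G') (cone G) K := by
  have hT : ∀ x, T *ᵥ (G' *ᵥ x) = lam⁻¹ • (G *ᵥ (A *ᵥ x)) := by
    intro x
    rw [mulVec_mulVec, mulVec_mulVec, ← h, smul_mulVec, smul_smul,
      inv_mul_cancel₀ hl.ne', one_smul]
  refine ⟨lam⁻¹ • (G *ᵥ fun _ => 1), ⟨lam⁻¹ • fun _ => 1, fun l => ?_, by rw [mulVec_smul]⟩, ?_⟩
  · simp; positivity
  rintro _ ⟨x, hx, rfl⟩
  refine ⟨∑ l, x l, Finset.sum_nonneg fun l _ => hx l, ?_, ?_, ?_⟩
  · refine ⟨lam⁻¹ • (A *ᵥ x - (∑ l, x l) • fun _ => 1), fun l => ?_, ?_⟩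
    · apply mul_nonneg (by positivity)
      simp only [Pi.sub_apply, Pi.smul_apply, smul_eq_mul, mul_one, mulVec, dotProduct]
      rw [← Finset.sum_sub_distrib]
      exact Finset.sum_nonneg fun j _ => by nlinarith [(hA l j).1, hx j]
    · rw [hT, mulVec_smul, mulVec_sub, mulVec_smul, smul_sub, smul_comm lam⁻¹ (∑ l, x l)]
  · refine ⟨lam⁻¹ • (((K * ∑ l, x l) • fun _ => 1) - A *ᵥ x), fun l => ?_, ?_⟩
    · apply mul_nonneg (by positivity)
      simp only [Pi.sub_apply, Pi.smul_apply, smul_eq_mul, mul_one, mulVec, dotProduct]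
      rw [Finset.mul_sum, ← Finset.sum_sub_distrib]
      exact Finset.sum_nonneg fun j _ => by nlinarith [(hA l j).2, hx j]
    · rw [hT, mulVec_smul, mulVec_sub, mulVec_smul, smul_sub, smul_comm lam⁻¹ (K * ∑ l, x l)]
  · intro h0
    have : x = 0 := by
      funext l
      exact (Finset.sum_eq_zero_iff_of_nonneg (fun l _ => hx l)).1 h0 l (Finset.mem_univ l)
    rw [this, mulVec_zero]

theorem maps_top {κ : Type} [Fintype κ] {T : Matrix ι ι ℝ} {G : Matrix ι κ ℝ} {c : ℝ}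
    (hc : 0 ≤ c) (h : ∀ i l, |(T * G) i l| ≤ c * ∑ i', (T * G) i' l)
    (h' : ∀ l, 0 ≤ ∑ i', (T * G) i' l) :
    Maps T (cone G) (topCone c) := by
  rintro _ ⟨x, hx, rfl⟩
  rw [mulVec_mulVec]
  have e : c * ∑ i, ((T * G) *ᵥ x) i = ∑ l, (c * ∑ i', (T * G) i' l) * x l := by
    simp only [mulVec, dotProduct]
    rw [Finset.sum_comm, Finset.mul_sum]
    refine Finset.sum_congr rfl fun l _ => ?_
    rw [← Finset.sum_mul, mul_assoc]
  show ‖(T * G) *ᵥ x‖ ≤ c * ∑ i, ((T * G) *ᵥ x) i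
  rw [e]
  apply (pi_norm_le_iff_of_nonneg ?_).2
  · intro i
    rw [Real.norm_eq_abs]
    simp only [mulVec, dotProduct]
    refine (Finset.abs_sum_le_sum_abs _ _).trans (Finset.sum_le_sum fun l _ => ?_)
    rw [abs_mul, abs_of_nonneg (hx l)]
    exact mul_le_mul_of_nonneg_right (h i l) (hx l)
  · exact Finset.sum_nonneg fun l _ => mul_nonneg (mul_nonneg hc (h' l)) (hx l)

theorem FD.comp {T T' : Matrix ι ι ℝ} {C'' C' C : Set (ι → ℝ)} {K : ℝ}
    (h : FD T C' C K) (h' : Maps T' C'' C') (hinj : ∀ v, T' *ᵥ v = 0 → v = 0) :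
    FD (T * T') C'' C K := by
  obtain ⟨e, he, h⟩ := h
  refine ⟨e, he, fun v hv => ?_⟩
  obtain ⟨n, hn, h1, h2, h3⟩ := h _ (h' v hv)
  rw [mulVec_mulVec] at h1 h2
  exact ⟨n, hn, h1, h2, fun h0 => hinj v (h3 h0)⟩

/-- normalized `d U + V` converges -/
theorem tendsto_nrm_line {c : ℝ} (hc : 0 < c) {U V : ι → ℝ} (hU : U ∈ topCone c) (hU0 : U ≠ 0) :
    Tendsto (fun d : ℕ => nrm ((d : ℝ) • U + V)) atTop (𝓝 (nrm U)) := by
  have hs := sum_pos_of_top hc hU hU0
  have h1 : Tendsto (fun d : ℕ => U + ((d : ℝ)⁻¹) • V) atTop (𝓝 U) := by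
    have := (tendsto_inv_atTop_nhds_zero_nat (𝕜 := ℝ)).smul_const V
    simpa using this.const_add U
  have hcont : ContinuousAt (fun w : ι → ℝ => nrm w) U := by
    unfold nrm
    have h2 : ContinuousAt (fun w : ι → ℝ => (∑ i, w i)⁻¹) U := by
      apply ContinuousAt.inv₀ _ hs.ne'
      fun_prop
    exact h2.smul continuousAt_id
  refine (hcont.tendsto.comp h1).congr' ?_
  filter_upwards [eventually_gt_atTop 0] with d hd
  have hd' : (d : ℝ) ≠ 0 := by positivity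
  have e : (d : ℝ) • U + V = (d : ℝ) • (U + ((d : ℝ)⁻¹) • V) := by
    rw [smul_add, smul_smul, mul_inv_cancel₀ hd', one_smul]
  simp only [Function.comp, e]
  unfold nrm
  simp only [Pi.smul_apply, smul_eq_mul, ← Finset.mul_sum, smul_smul, mul_inv]
  congr 1
  field_simp

end Pool.Agent.H649Z.Cox
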