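import Pool.Agent.H649Z.LRSoft

/-! The covering lemma for the pentagon pair, and the volumes. -/

set_option autoImplicit false

namespace Pool.Agent.H649Z.LR

open MeasureTheory Set
open scoped ENNReal

/-- the pentagon with vertices `r(3,0), r(1,3), r(-2,2), r(-2,-2), r(1,-3)` -/
def Pent (r x y : ℝ) : Prop :=
  3 * x + 2 * y ≤ 9 * r ∧ -x + 3 * y ≤ 8 * r ∧ -x ≤ 2 * r ∧ -x - 3 * y ≤ 8 * r ∧
    3 * x - 2 * y ≤ 9 * r

section cover

variable {x y A : ℝ → ℝ} {T : ℝ}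

theorem cyc (hm : ∀ p1 p2, Pent 1 p2 p1 → ∀ s t, 0 ≤ s → s ≤ t → t ≤ T →
      p1 * (x t - x s) + p2 * (y t - y s) ≤ A t - A s) (hx : x T = x 0) (hy : y T = y 0)
    (a1 a2 b1 b2 c1 c2 : ℝ) (ha : Pent 1 a2 a1) (hb : Pent 1 b2 b1) (hc : Pent 1 c2 c1)
    (s1 s2 s3 : ℝ) (h0 : 0 ≤ s1) (h12 : s1 ≤ s2) (h23 : s2 ≤ s3) (h3 : s3 ≤ T) :
    (c1 - a1) * x s1 + (c2 - a2) * y s1 + ((a1 - b1) * x s2 + (a2 - b2) * y s2) +
      ((b1 - c1) * x s3 + (b2 - c2) * y s3) ≤ A T - A 0 := by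
  have h1 := hm c1 c2 hc 0 s1 le_rfl h0 (by linarith)
  have h2 := hm a1 a2 ha s1 s2 h0 h12 (by linarith)
  have h4 := hm b1 b2 hb s2 s3 (by linarith) h23 h3
  have h5 := hm c1 c2 hc s3 T (by linarith) h3 le_rfl
  rw [hx, hy] at h5
  linarith

theorem triple (hm : ∀ p1 p2, Pent 1 p2 p1 → ∀ s t, 0 ≤ s → s ≤ t → t ≤ T →
      p1 * (x t - x s) + p2 * (y t - y s) ≤ A t - A s) (hx : x T = x 0) (hy : y T = y 0)
    (e1 e2 f1 f2 a1 a2 b1 b2 : ℝ)
    (ha : Pent 1 a2 a1) (ha' : Pent 1 (a2 - e2) (a1 - e1))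
    (ha'' : Pent 1 (a2 - e2 - f2) (a1 - e1 - f1))
    (hb : Pent 1 b2 b1) (hb' : Pent 1 (b2 - e2) (b1 - e1))
    (hb'' : Pent 1 (b2 + f2) (b1 + f1))
    (t1 t2 t3 : ℝ) (h1 : t1 ∈ Icc 0 T) (h2 : t2 ∈ Icc 0 T) (h3 : t3 ∈ Icc 0 T) :
    e1 * x t1 + e2 * y t1 + (f1 * x t2 + f2 * y t2) +
      ((-e1 - f1) * x t3 + (-e2 - f2) * y t3) ≤ A T - A 0 := by
  rcases le_total t1 t2 with a | a <;> rcases le_total t2 t3 with b | b <;>
    rcases le_total t1 t3 with c | c
  · have := cyc hm hx hy _ _ _ _ _ _ ha' ha'' ha t1 t2 t3 h1.1 a b h3.2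
    linarith
  · have := cyc hm hx hy _ _ _ _ _ _ ha' ha'' ha t1 t2 t3 h1.1 a b h3.2
    linarith
  · have := cyc hm hx hy _ _ _ _ _ _ hb' hb'' hb t1 t3 t2 h1.1 c b h2.2
    linarith
  · have := cyc hm hx hy _ _ _ _ _ _ ha ha' ha'' t3 t1 t2 h3.1 c a h2.2
    linarith
  · have := cyc hm hx hy _ _ _ _ _ _ hb hb' hb'' t2 t1 t3 h2.1 a c h3.2
    linarith
  · have := cyc hm hx hy _ _ _ _ _ _ ha'' ha ha' t2 t3 t1 h2.1 b c h1.2
    linarith
  · have := cyc hm hx hy _ _ _ _ _ _ hb'' hb hb' t3 t2 t1 h3.1 b a h1.2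
    linarith
  · have := cyc hm hx hy _ _ _ _ _ _ hb'' hb hb' t3 t2 t1 h3.1 b a h1.2
    linarith

theorem cover (hT : 0 ≤ T) (cx : Continuous x) (cy : Continuous y)
    (hm : ∀ p1 p2, Pent 1 p2 p1 → ∀ s t, 0 ≤ s → s ≤ t → t ≤ T →
      p1 * (x t - x s) + p2 * (y t - y s) ≤ A t - A s) (hx : x T = x 0) (hy : y T = y 0) :
    ∃ v1 v2, ∀ t ∈ Icc 0 T, Pent ((A T - A 0) / 30) (x t - v1) (y t - v2) := by
  have ne : (Icc 0 T).Nonempty := nonempty_Icc.2 hT
  have mx : ∀ a b : ℝ, ∃ s ∈ Icc 0 T, ∀ t ∈ Icc 0 T, a * x t + b * y t ≤ a * x s + b * y s := by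
    intro a b
    obtain ⟨s, hs, h⟩ := isCompact_Icc.exists_isMaxOn ne
      (f := fun t => a * x t + b * y t) (by fun_prop)
    exact ⟨s, hs, fun t ht => h ht⟩
  obtain ⟨t0, m0, k0⟩ := mx 3 2
  obtain ⟨t1, m1, k1⟩ := mx (-1) 3
  obtain ⟨t2, m2, k2⟩ := mx (-1) 0
  obtain ⟨t3, m3, k3⟩ := mx (-1) (-3)
  obtain ⟨t4, m4, k4⟩ := mx 3 (-2)
  have i1 := triple hm hx hy (90/19) (60/19) (-70/19) 0 (105/38) (22/19) (105/38) (22/19)
    (by norm_num [Pent]) (by norm_num [Pent]) (by norm_num [Pent]) (by norm_num [Pent])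
    (by norm_num [Pent]) (by norm_num [Pent]) t0 t2 t3 m0 m2 m3
  have i2 := triple hm hx hy 3 2 (-6) 0 0 3 3 1
    (by norm_num [Pent]) (by norm_num [Pent]) (by norm_num [Pent]) (by norm_num [Pent])
    (by norm_num [Pent]) (by norm_num [Pent]) t0 t2 t4 m0 m2 m4
  have i3 := triple hm hx hy (-20/19) (60/19) (-70/19) 0 (-52/19) (22/19) (18/19) (22/19)
    (by norm_num [Pent]) (by norm_num [Pent]) (by norm_num [Pent]) (by norm_num [Pent])
    (by norm_num [Pent]) (by norm_num [Pent]) t1 t2 t4 m1 m2 m4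
  have i4 := triple hm hx hy (30/11) (20/11) (-35/33) (35/11) 0 3 (35/33) (-2/11)
    (by norm_num [Pent]) (by norm_num [Pent]) (by norm_num [Pent]) (by norm_num [Pent])
    (by norm_num [Pent]) (by norm_num [Pent]) t0 t1 t3 m0 m1 m3
  have i5 := triple hm hx hy (-5/3) 5 (-35/33) (-35/11) 0 3 0 3
    (by norm_num [Pent]) (by norm_num [Pent]) (by norm_num [Pent]) (by norm_num [Pent])
    (by norm_num [Pent]) (by norm_num [Pent]) t1 t3 t4 m1 m3 m4
  set L := (A T - A 0) / 30 with hL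
  have hL' : A T - A 0 = 30 * L := by rw [hL]; ring
  rw [hL'] at i1 i2 i3 i4 i5
  set r0 := 3 * x t0 + 2 * y t0 - 9 * L with hr0
  set r1 := -1 * x t1 + 3 * y t1 - 8 * L with hr1
  set r2 := -1 * x t2 + 0 * y t2 - 2 * L with hr2
  set r3 := -1 * x t3 + -3 * y t3 - 8 * L with hr3
  set r4 := 3 * x t4 + -2 * y t4 - 9 * L with hr4
  have j1 : 3 * r0 + 7 * r2 + 2 * r3 ≤ 0 := by linarith
  have j2 : r0 + 6 * r2 + r4 ≤ 0 := by linarith
  have j3 : 2 * r1 + 7 * r2 + 3 * r4 ≤ 0 := by linarith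
  have j4 : 6 * r0 + 7 * r1 + 11 * r3 ≤ 0 := by linarith
  have j5 : 11 * r1 + 7 * r3 + 6 * r4 ≤ 0 := by linarith
  have hv : ∃ v1 v2 : ℝ, r0 ≤ 3 * v1 + 2 * v2 ∧ r1 ≤ -v1 + 3 * v2 ∧ r2 ≤ -v1 ∧
      r3 ≤ -v1 - 3 * v2 ∧ r4 ≤ 3 * v1 - 2 * v2 := by
    have h1 : ∃ v1 : ℝ, v1 ≤ -r2 ∧ 2 * v1 ≤ -r1 - r3 ∧ 3 * r0 + 2 * r3 ≤ 7 * v1 ∧
        r0 + r4 ≤ 6 * v1 ∧ 2 * r1 + 3 * r4 ≤ 7 * v1 := by
      rcases le_total (-r2) ((-r1 - r3) / 2) with h | h
      · exact ⟨-r2, by linarith, by linarith, by linarith, by linarith, by linarith⟩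
      · exact ⟨(-r1 - r3) / 2, by linarith, by linarith, by linarith, by linarith, by linarith⟩
    obtain ⟨v1, a1, a2, a3, a4, a5⟩ := h1
    rcases le_total ((r0 - 3 * v1) / 2) ((r1 + v1) / 3) with h | h
    · exact ⟨v1, (r1 + v1) / 3, by linarith, by linarith, by linarith, by linarith, by linarith⟩
    · exact ⟨v1, (r0 - 3 * v1) / 2, by linarith, by linarith, by linarith, by linarith,
        by linarith⟩
  obtain ⟨v1, v2, b0, b1, b2, b3, b4⟩ := hv
  refine ⟨v1, v2, fun t ht => ?_⟩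
  have := k0 t ht
  have := k1 t ht
  have := k2 t ht
  have := k3 t ht
  have := k4 t ht
  exact ⟨by linarith, by linarith, by linarith, by linarith, by linarith⟩

end cover

theorem vol_trap (a b c d : ℝ) (hab : a ≤ b) (h : ∀ x ∈ Icc a b, 0 ≤ c + d * x) :
    volume {z : ℝ × ℝ | z.1 ∈ Icc a b ∧ z.2 ∈ Icc (-(c + d * z.1)) (c + d * z.1)}
      = ENNReal.ofReal (2 * c * (b - a) + d * (b ^ 2 - a ^ 2)) := by
  have e : {z : ℝ × ℝ | z.1 ∈ Icc a b ∧ z.2 ∈ Icc (-(c + d * z.1)) (c + d * z.1)}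
      = {z : ℝ × ℝ | z.1 ∈ Icc a b ∧
        z.2 ∈ Icc ((fun x => -(c + d * x)) z.1) ((fun x => c + d * x) z.1)} := rfl
  have h1 : volume {z : ℝ × ℝ | z.1 ∈ Icc a b ∧ z.2 ∈ Icc (-(c + d * z.1)) (c + d * z.1)}
      = ∫⁻ x in Icc a b, ENNReal.ofReal (2 * (c + d * x)) := by
    rw [Measure.volume_eq_prod, Measure.prod_apply, ← lintegral_indicator measurableSet_Icc]
    · congr 1
      funext x
      by_cases hx : x ∈ Icc a b
      · rw [indicator_of_mem hx]
        have : Prod.mk x ⁻¹' {z : ℝ × ℝ | z.1 ∈ Icc a b ∧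
            z.2 ∈ Icc (-(c + d * z.1)) (c + d * z.1)} = Icc (-(c + d * x)) (c + d * x) := by
          ext y; simp only [mem_preimage, mem_ofPred_eq, hx, true_and]
        rw [this, Real.volume_Icc]
        congr 1; ring
      · rw [indicator_of_notMem hx]
        have : Prod.mk x ⁻¹' {z : ℝ × ℝ | z.1 ∈ Icc a b ∧
            z.2 ∈ Icc (-(c + d * z.1)) (c + d * z.1)} = ∅ := by
          ext y; simp only [mem_preimage, mem_ofPred_eq, hx, false_and, mem_empty_iff_false]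
        rw [this, measure_empty]
    · rw [e]
      exact measurableSet_region_between_cc (f := fun x => -(c + d * x)) (g := fun x => c + d * x)
        (by fun_prop) (by fun_prop) measurableSet_Icc
  rw [h1, ← ofReal_integral_eq_lintegral_ofReal, integral_Icc_eq_integral_Ioc,
    ← intervalIntegral.integral_of_le hab]
  · congr 1
    have : ∀ x : ℝ, 2 * (c + d * x) = 2 * c + (2 * d) * x := fun x => by ring
    simp_rw [this]
    rw [intervalIntegral.integral_add (by apply Continuous.intervalIntegrable; fun_prop)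
      (by apply Continuous.intervalIntegrable; fun_prop), intervalIntegral.integral_const_mul,
      intervalIntegral.integral_const_mul, integral_id]
    simp
    ring
  · apply Continuous.integrableOn_Icc; fun_prop
  · filter_upwards [ae_restrict_mem measurableSet_Icc] with x hx
    have := h x hx
    positivity

theorem vol_pent (r : ℝ) (hr : 0 ≤ r) :
    volume {z : ℝ × ℝ | Pent r z.1 z.2} ≤ ENNReal.ofReal (21 * r ^ 2) := by
  have h1 := vol_trap (-2 * r) r (8 * r / 3) (1 / 3) (by linarith)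
    (fun x hx => by linarith [hx.1])
  have h2 := vol_trap r (3 * r) (9 * r / 2) (-3 / 2) (by linarith)
    (fun x hx => by linarith [hx.2])
  have hsub : {z : ℝ × ℝ | Pent r z.1 z.2} ⊆
      {z : ℝ × ℝ | z.1 ∈ Icc (-2 * r) r ∧
        z.2 ∈ Icc (-(8 * r / 3 + 1 / 3 * z.1)) (8 * r / 3 + 1 / 3 * z.1)} ∪
      {z : ℝ × ℝ | z.1 ∈ Icc r (3 * r) ∧
        z.2 ∈ Icc (-(9 * r / 2 + -3 / 2 * z.1)) (9 * r / 2 + -3 / 2 * z.1)} := by
    rintro ⟨x, y⟩ ⟨a1, a2, a3, a4, a5⟩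
    simp only at a1 a2 a3 a4 a5
    rcases le_total x r with h | h
    · exact Or.inl ⟨⟨by linarith, h⟩, by linarith, by linarith⟩
    · exact Or.inr ⟨⟨h, by linarith⟩, by linarith, by linarith⟩
  refine (measure_mono hsub).trans ((measure_union_le _ _).trans (le_of_eq ?_))
  rw [h1, h2, ← ENNReal.ofReal_add (by nlinarith) (by nlinarith)]
  congr 1; ring

theorem measurableSet_pent (r : ℝ × ℝ × ℝ → ℝ) (x y : ℝ × ℝ × ℝ → ℝ) (hr : Continuous r)
    (hx : Continuous x) (hy : Continuous y) : MeasurableSet {z | Pent (r z) (x z) (y z)} := by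
  apply IsClosed.measurableSet
  simp only [Pent, ofPred_and]
  refine IsClosed.inter ?_ (IsClosed.inter ?_ (IsClosed.inter ?_ (IsClosed.inter ?_ ?_))) <;>
    exact isClosed_le (by fun_prop) (by fun_prop)

theorem vol_three (S : Set (ℝ × ℝ × ℝ)) (hS : MeasurableSet S) :
    volume {q : Fin 3 → ℝ | (q 2, q 0, q 1) ∈ S} = volume S := by
  have h1 := volume_preserving_piFinSuccAbove (fun _ : Fin 3 => ℝ) 2
  have h2 := (MeasurePreserving.id (volume : Measure ℝ)).prod (volume_preserving_finTwoArrow ℝ)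
  have h3 := h2.comp h1
  rw [← Measure.volume_eq_prod] at h3
  rw [← h3.measure_preimage hS.nullMeasurableSet]
  congr 1

theorem vol_bipyramid :
    volume {q : Fin 3 → ℝ | Pent (1 - |q 2| / 3) (q 0) (q 1)} ≤ ENNReal.ofReal 42 := by
  have hS := measurableSet_pent (fun z => 1 - |z.1| / 3) (fun z => z.2.1) (fun z => z.2.2)
    (by fun_prop) (by fun_prop) (by fun_prop)
  have := vol_three _ hS
  simp only [mem_ofPred_eq] at this
  rw [this, Measure.volume_eq_prod, Measure.prod_apply hS]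
  have hb : ∀ z : ℝ, volume (Prod.mk z ⁻¹' {z : ℝ × ℝ × ℝ | Pent (1 - |z.1| / 3) z.2.1 z.2.2})
      ≤ (Icc (-3 : ℝ) 3).indicator (fun z => ENNReal.ofReal (21 * (1 - |z| / 3) ^ 2)) z := by
    intro z
    by_cases hz : z ∈ Icc (-3 : ℝ) 3
    · rw [indicator_of_mem hz]
      have : |z| ≤ 3 := abs_le.2 hz
      exact vol_pent _ (by linarith)
    · have : Prod.mk z ⁻¹' {z : ℝ × ℝ × ℝ | Pent (1 - |z.1| / 3) z.2.1 z.2.2} = ∅ := by
        ext ⟨x, y⟩
        simp only [mem_preimage, mem_ofPred_eq, mem_empty_iff_false, iff_false]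
        rintro ⟨a1, a2, a3, a4, a5⟩
        exact hz (abs_le.1 (by linarith))
      rw [this, measure_empty]
      exact zero_le
  refine (lintegral_mono hb).trans (le_of_eq ?_)
  rw [lintegral_indicator measurableSet_Icc, ← ofReal_integral_eq_lintegral_ofReal,
    integral_Icc_eq_integral_Ioc, ← intervalIntegral.integral_of_le (by norm_num)]
  · congr 1
    have hi : ∀ a b : ℝ, IntervalIntegrable (fun z : ℝ => 21 * (1 - |z| / 3) ^ 2) volume a b :=
      fun a b => by apply Continuous.intervalIntegrable; fun_prop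
    rw [← intervalIntegral.integral_add_adjacent_intervals (hi (-3) 0) (hi 0 3)]
    have e1 : ∫ z in (-3 : ℝ)..0, 21 * (1 - |z| / 3) ^ 2
        = ∫ z in (-3 : ℝ)..0, (21 + 14 * z + 7 / 3 * z ^ 2) := by
      apply intervalIntegral.integral_congr
      intro z hz
      rw [uIcc_of_le (by norm_num)] at hz
      simp only [abs_of_nonpos hz.2]; ring
    have e2 : ∫ z in (0 : ℝ)..3, 21 * (1 - |z| / 3) ^ 2
        = ∫ z in (0 : ℝ)..3, (21 + (-14) * z + 7 / 3 * z ^ 2) := by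
      apply intervalIntegral.integral_congr
      intro z hz
      rw [uIcc_of_le (by norm_num)] at hz
      simp only [abs_of_nonneg hz.1]; ring
    have e3 : ∀ a b c : ℝ, ∫ z in a..b, (21 + c * z + 7 / 3 * z ^ 2)
        = 21 * (b - a) + c * ((b ^ 2 - a ^ 2) / 2) + 7 / 3 * ((b ^ 3 - a ^ 3) / 3) := by
      intro a b c
      rw [intervalIntegral.integral_add (by apply Continuous.intervalIntegrable; fun_prop)
        (by apply Continuous.intervalIntegrable; fun_prop),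
        intervalIntegral.integral_add (by apply Continuous.intervalIntegrable; fun_prop)
        (by apply Continuous.intervalIntegrable; fun_prop), intervalIntegral.integral_const_mul,
        intervalIntegral.integral_const_mul, integral_id, integral_pow,
        intervalIntegral.integral_const, smul_eq_mul]
      norm_num
      ring
    rw [e1, e2, e3, e3]
    norm_num
  · apply Continuous.integrableOn_Icc; fun_prop
  · exact Filter.Eventually.of_forall fun z => by positivity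

theorem vol_prism :
    volume {p : Fin 3 → ℝ | Pent 1 (p 1) (p 0) ∧ p 2 ∈ Icc (0 : ℝ) 5} ≤ ENNReal.ofReal 105 := by
  have hP : MeasurableSet {z : ℝ × ℝ | Pent 1 z.2 z.1} := by
    apply IsClosed.measurableSet
    simp only [Pent, ofPred_and]
    refine IsClosed.inter ?_ (IsClosed.inter ?_ (IsClosed.inter ?_ (IsClosed.inter ?_ ?_))) <;>
      exact isClosed_le (by fun_prop) (by fun_prop)
  have := vol_three ((Icc (0 : ℝ) 5) ×ˢ {z : ℝ × ℝ | Pent 1 z.2 z.1})
    (measurableSet_Icc.prod hP)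
  have e : {p : Fin 3 → ℝ | Pent 1 (p 1) (p 0) ∧ p 2 ∈ Icc (0 : ℝ) 5} =
      {q : Fin 3 → ℝ | (q 2, q 0, q 1) ∈ (Icc (0 : ℝ) 5) ×ˢ {z : ℝ × ℝ | Pent 1 z.2 z.1}} := by
    ext p; simp only [mem_ofPred_eq, mem_prod]; tauto
  rw [e, this, Measure.volume_eq_prod, Measure.prod_prod, Real.volume_Icc]
  have h2 : volume {z : ℝ × ℝ | Pent 1 z.2 z.1} = volume {z : ℝ × ℝ | Pent 1 z.1 z.2} := by
    exact ((Measure.measurePreserving_swap (μ := (volume : Measure ℝ))
      (ν := (volume : Measure ℝ))).measure_preimage hP.nullMeasurableSet).symm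
  rw [h2]
  refine (mul_le_mul_right (vol_pent 1 zero_le_one) _).trans (le_of_eq ?_)
  rw [← ENNReal.ofReal_mul (by norm_num)]
  norm_num

end Pool.Agent.H649Z.LR
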