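import Mathlib

/-! The coisotropic Hofer-Zehnder capacity `c_LR (D, D ∩ ℝ^{n,n-1})` of a subset `D` of `ℝ^{2n}`,
`n = k + 1`. -/

set_option autoImplicit false

namespace Pool.Agent.H649Z.LR

open scoped ENNReal ContDiff

/-- `ℝ^{2n}` with coordinates `(q, p)`. -/
abbrev Phase (n : ℕ) : Type := (Fin n → ℝ) × (Fin n → ℝ)

/-- The Hamiltonian vector field `σ (∂H/∂p, -∂H/∂q)`; `σ = 1` and `σ = -1` are the two sign
conventions. -/
noncomputable def hamVF {n : ℕ} (σ : ℝ) (H : Phase n → ℝ) (x : Phase n) : Phase n :=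
  (fun j => σ * fderiv ℝ H x (0, Pi.single j 1), fun j => -(σ * fderiv ℝ H x (Pi.single j 1, 0)))

/-- The coisotropic hyperplane `ℝ^{n,n-1} = {p_n = 0}`. -/
def coiso (k : ℕ) : Set (Phase (k + 1)) := {x | x.2 (Fin.last k) = 0}

/-- The leaf relation: `y - x` is a multiple of the `q_n` coordinate vector. -/
def SameLeaf {k : ℕ} (x y : Phase (k + 1)) : Prop :=
  ∃ c : ℝ, y - x = c • ((Pi.single (Fin.last k) 1, 0) : Phase (k + 1))

/-- `H` (extended by the constant `m = m(H)` outside `D`) is a simple function for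
`(D, D ∩ ℝ^{n,n-1})`. -/
structure IsSimple {k : ℕ} (D : Set (Phase (k + 1))) (H : Phase (k + 1) → ℝ) (m : ℝ) : Prop where
  smooth : ContDiff ℝ ∞ H
  top : ∃ K : Set (Phase (k + 1)), IsCompact K ∧ K ⊆ interior D ∧
    (K ∩ (D ∩ coiso k)).Nonempty ∧ ∀ x, x ∉ K → H x = m
  zero : ∃ U : Set (Phase (k + 1)), IsOpen U ∧ (U ∩ (D ∩ coiso k)).Nonempty ∧ ∀ x ∈ U, H x = 0
  bounds : ∀ x, 0 ≤ H x ∧ H x ≤ m

/-- The leafwise return time `T_γ`, with `inf ∅ = ∞`. -/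
noncomputable def returnTime {k : ℕ} (D : Set (Phase (k + 1))) (γ : ℝ → Phase (k + 1)) : ℝ≥0∞ :=
  ⨅ (t : ℝ) (_ : 0 < t ∧ γ t ∈ D ∩ coiso k ∧ SameLeaf (γ 0) (γ t)), ENNReal.ofReal t

/-- Every solution of Hamilton's equation starting on `N` is constant or has `T_γ > 1`. -/
def IsAdmissible {k : ℕ} (σ : ℝ) (D : Set (Phase (k + 1))) (H : Phase (k + 1) → ℝ) : Prop :=
  ∀ γ : ℝ → Phase (k + 1), (∀ t, HasDerivAt γ (hamVF σ H (γ t)) t) → γ 0 ∈ D ∩ coiso k →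
    (∀ t, γ t = γ 0) ∨ 1 < returnTime D γ

/-- The coisotropic Hofer-Zehnder capacity. -/
noncomputable def cLR {k : ℕ} (σ : ℝ) (D : Set (Phase (k + 1))) : ℝ≥0∞ :=
  ⨆ (H : Phase (k + 1) → ℝ) (m : ℝ) (_ : IsSimple D H m ∧ IsAdmissible σ D H), ENNReal.ofReal m

end Pool.Agent.H649Z.LR
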