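import Pool.Agent.H649Z.LRCover

/-! The counterexample: bipyramid over a pentagon times a prism over the rotated pentagon. -/

set_option autoImplicit false

namespace Pool.Agent.H649Z.LR

open MeasureTheory Set
open scoped ENNReal ContDiff

noncomputable def lin (a b : Fin 3 → ℝ) : Phase 3 →L[ℝ] ℝ :=
  ∑ j, a j • (ContinuousLinearMap.proj j).comp (ContinuousLinearMap.fst ℝ (Fin 3 → ℝ) (Fin 3 → ℝ))
  + ∑ j, b j • (ContinuousLinearMap.proj j).comp (ContinuousLinearMap.snd ℝ (Fin 3 → ℝ) (Fin 3 → ℝ))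

theorem lin_apply (a b : Fin 3 → ℝ) (x : Phase 3) :
    lin a b x = a 0 * x.1 0 + a 1 * x.1 1 + a 2 * x.1 2 + (b 0 * x.2 0 + b 1 * x.2 1 + b 2 * x.2 2) := by
  simp [lin, Fin.sum_univ_three]

noncomputable def ca : Fin 17 → Fin 3 → ℝ :=
  ![![1/3, 2/9, 1/3], ![-1/8, 3/8, 1/3], ![-1/2, 0, 1/3], ![-1/8, -3/8, 1/3], ![1/3, -2/9, 1/3],
    ![1/3, 2/9, -1/3], ![-1/8, 3/8, -1/3], ![-1/2, 0, -1/3], ![-1/8, -3/8, -1/3],
    ![1/3, -2/9, -1/3],
    ![0, 0, 0], ![0, 0, 0], ![0, 0, 0], ![0, 0, 0], ![0, 0, 0], ![0, 0, 0], ![0, 0, 0]]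

noncomputable def cb : Fin 17 → Fin 3 → ℝ :=
  ![![0, 0, 0], ![0, 0, 0], ![0, 0, 0], ![0, 0, 0], ![0, 0, 0],
    ![0, 0, 0], ![0, 0, 0], ![0, 0, 0], ![0, 0, 0], ![0, 0, 0],
    ![2/9, 1/3, 0], ![3/8, -1/8, 0], ![0, -1/2, 0], ![-3/8, -1/8, 0], ![-2/9, 1/3, 0],
    ![0, 0, 1/5], ![0, 0, -1/5]]

def cu : Fin 17 → ℝ := ![0, 0, 0, 0, 0, 0, 0, 0, 0, 0, 1, 1, 1, 1, 1, 0, 0]
def cu' : Fin 17 → ℝ := ![0, 0, 0, 0, 0, 0, 0, 0, 0, 0, 0, 0, 0, 0, 0, 1, 1]
def cv : Fin 17 → ℝ := ![1, 1, 1, 1, 1, 1, 1, 1, 1, 1, 0, 0, 0, 0, 0, 0, 0]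

noncomputable def ell (i : Fin 17) : Phase 3 →L[ℝ] ℝ := lin (ca i) (cb i)

theorem fact_sum (i : Fin 17) : cu i + cu' i + cv i = 1 := by
  fin_cases i <;> simp [cu, cu', cv]

theorem fact_u (i : Fin 17) (p1 p2 : ℝ) (h : Pent 1 p2 p1) :
    p1 * cb i 0 + p2 * cb i 1 ≤ cu i := by
  obtain ⟨a1, a2, a3, a4, a5⟩ := h
  fin_cases i <;> simp [cu, cb] <;> linarith

theorem fact_u' (i : Fin 17) : cb i 2 ≤ cu' i / 5 ∧ -cb i 2 ≤ cu' i / 5 := by
  fin_cases i <;> simp [cu', cb] <;> norm_num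

theorem fact_v (i : Fin 17) (r r' x y z : ℝ) (h : Pent r x y) (h1 : z ≤ 3 * r') (h2 : -z ≤ 3 * r') :
    x * ca i 0 + y * ca i 1 + z * ca i 2 ≤ (r + r') * cv i := by
  obtain ⟨a1, a2, a3, a4, a5⟩ := h
  fin_cases i <;> simp [cv, ca] <;> linarith

def Dr (r : ℝ) : Set (Phase 3) := {x | ∀ i, ell i x ≤ r}

theorem Dr_desc {r : ℝ} (hr : r ≤ 1) {x : Phase 3} (hx : x ∈ Dr r) :
    Pent (1 - |x.1 2| / 3) (x.1 0) (x.1 1) ∧ Pent 1 (x.2 1) (x.2 0) ∧ x.2 2 ≤ 5 ∧ -x.2 2 ≤ 5 := by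
  have h0 := hx 0
  have h1 := hx 1
  have h2 := hx 2
  have h3 := hx 3
  have h4 := hx 4
  have h5 := hx 5
  have h6 := hx 6
  have h7 := hx 7
  have h8 := hx 8
  have h9 := hx 9
  have h10 := hx 10
  have h11 := hx 11
  have h12 := hx 12
  have h13 := hx 13
  have h14 := hx 14
  have h15 := hx 15
  have h16 := hx 16
  simp [ell, lin_apply, ca, cb] at h0 h1 h2 h3 h4 h5 h6 h7 h8 h9 h10 h11 h12 h13 h14 h15 h16
  refine ⟨?_, ⟨by linarith, by linarith, by linarith, by linarith, by linarith⟩,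
    by linarith, by linarith⟩
  rcases abs_cases (x.1 2) with h | h <;> rw [h.1] <;>
    exact ⟨by linarith, by linarith, by linarith, by linarith, by linarith⟩

theorem isCompact_Dr {r : ℝ} (hr : r ≤ 1) : IsCompact (Dr r) := by
  apply Metric.isCompact_of_isClosed_isBounded
  · have : Dr r = ⋂ i, {x | ell i x ≤ r} := by ext x; simp [Dr]
    rw [this]
    exact isClosed_iInter fun i => isClosed_le (ell i).continuous continuous_const
  · apply (Metric.isBounded_closedBall (x := (0 : Phase 3)) (r := 5)).subset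
    intro x hx
    obtain ⟨⟨a1, a2, a3, a4, a5⟩, ⟨b1, b2, b3, b4, b5⟩, c1, c2⟩ := Dr_desc hr hx
    have := abs_nonneg (x.1 2)
    rw [mem_closedBall_zero_iff, Prod.norm_def, max_le_iff, pi_norm_le_iff_of_nonneg (by norm_num),
      pi_norm_le_iff_of_nonneg (by norm_num)]
    constructor <;> intro j <;> fin_cases j <;> simp only [Real.norm_eq_abs]
    · exact abs_le.2 ⟨by simp; linarith, by simp; linarith⟩
    · exact abs_le.2 ⟨by simp; linarith, by simp; linarith⟩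
    · simp; linarith
    · exact abs_le.2 ⟨by simp; linarith, by simp; linarith⟩
    · exact abs_le.2 ⟨by simp; linarith, by simp; linarith⟩
    · exact abs_le.2 ⟨by simp; linarith, by simp; linarith⟩

theorem convex_Dr (r : ℝ) : Convex ℝ (Dr r) := by
  intro x hx y hy a b ha hb hab i
  have h1 := hx i
  have h2 := hy i
  rw [map_add, map_smul, map_smul, smul_eq_mul, smul_eq_mul]
  calc a * ell i x + b * ell i y ≤ a * r + b * r := by gcongr
    _ = r := by rw [← add_mul, hab, one_mul]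

theorem Dr_sub_interior {r : ℝ} (hr : r < 1) : Dr r ⊆ interior (Dr 1) := by
  have ho : IsOpen {x : Phase 3 | ∀ i, ell i x < 1} := by
    have : {x : Phase 3 | ∀ i, ell i x < 1} = ⋂ i, {x | ell i x < 1} := by ext x; simp
    rw [this]
    exact isOpen_iInter_of_finite fun i => isOpen_lt (ell i).continuous continuous_const
  have : {x : Phase 3 | ∀ i, ell i x < 1} ⊆ interior (Dr 1) :=
    interior_maximal (fun x hx i => (hx i).le) ho
  exact fun x hx => this fun i => (hx i).trans_lt hr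

theorem vol_plus : volume (Dr 1 ∩ {x | 0 ≤ x.2 (Fin.last 2)}) ≤ ENNReal.ofReal 4410 := by
  have hsub : Dr 1 ∩ {x | 0 ≤ x.2 (Fin.last 2)} ⊆
      {q : Fin 3 → ℝ | Pent (1 - |q 2| / 3) (q 0) (q 1)} ×ˢ
      {p : Fin 3 → ℝ | Pent 1 (p 1) (p 0) ∧ p 2 ∈ Icc (0 : ℝ) 5} := by
    rintro x ⟨hx, h0⟩
    obtain ⟨a, b, c, -⟩ := Dr_desc le_rfl hx
    exact ⟨a, b, h0, c⟩
  refine (measure_mono hsub).trans ?_
  rw [Measure.volume_eq_prod, Measure.prod_prod]
  refine (mul_le_mul' vol_bipyramid vol_prism).trans (le_of_eq ?_)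
  rw [← ENNReal.ofReal_mul (by norm_num)]
  norm_num

theorem mono_of {φ φ' : ℝ → ℝ} (h : ∀ t, HasDerivAt φ (φ' t) t) (h0 : ∀ t, 0 ≤ φ' t) :
    Monotone φ :=
  monotone_of_deriv_nonneg (fun t => (h t).differentiableAt) fun t => by
    rw [(h t).deriv]; exact h0 t

theorem chord_core {κ s T : ℝ} (hκ : 0 < κ) (hκs : κ ≤ 599 / 10 * s) (hT : 0 < T)
    (q p : Fin 3 → ℝ → ℝ) (W : Fin 17 → ℝ → ℝ) (hWc : ∀ i, Continuous (W i))
    (hW0 : ∀ i t, 0 ≤ W i t) (hW1 : ∀ t, ∑ i, W i t = 1)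
    (hq : ∀ j t, HasDerivAt (q j) (κ * ∑ i, W i t * cb i j) t)
    (hp : ∀ j t, HasDerivAt (p j) (-(κ * ∑ i, W i t * ca i j)) t)
    (hs : ∀ t, s ≤ ∑ i, W i t * (ca i 0 * q 0 t + ca i 1 * q 1 t + ca i 2 * q 2 t +
      (cb i 0 * p 0 t + cb i 1 * p 1 t + cb i 2 * p 2 t)))
    (e0 : q 0 T = q 0 0) (e1 : q 1 T = q 1 0) (e2 : p 0 T = p 0 0) (e3 : p 1 T = p 1 0)
    (e4 : p 2 T = 0) (e5 : p 2 0 = 0) : 600 / 599 ≤ T := by
  let I : (Fin 17 → ℝ) → ℝ → ℝ := fun c t => ∫ u in (0 : ℝ)..t, κ * ∑ i, W i u * c i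
  have hI : ∀ c t, HasDerivAt (I c) (κ * ∑ i, W i t * c i) t := by
    intro c t
    have : Continuous fun u => κ * ∑ i, W i u * c i := by fun_prop
    exact (this.integral_hasStrictDerivAt 0 t).hasDerivAt
  have hI0 : ∀ c, I c 0 = 0 := fun c => by simp [I]
  have hpos : ∀ (c : Fin 17 → ℝ) t, (∀ i, 0 ≤ c i) → 0 ≤ κ * ∑ i, W i t * c i :=
    fun c t hc => mul_nonneg hκ.le (Finset.sum_nonneg fun i _ => mul_nonneg (hW0 i t) (hc i))
  have qc : ∀ j, Continuous (q j) :=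
    fun j => continuous_iff_continuousAt.2 fun t => (hq j t).continuousAt
  -- planar part
  have hm : ∀ p1 p2, Pent 1 p2 p1 → ∀ a b, 0 ≤ a → a ≤ b → b ≤ T →
      p1 * (q 0 b - q 0 a) + p2 * (q 1 b - q 1 a) ≤ I cu b - I cu a := by
    intro p1 p2 hP a b _ hab _
    have := mono_of (φ := fun t => I cu t - (p1 * q 0 t + p2 * q 1 t))
      (fun t => (hI cu t).sub (((hq 0 t).const_mul p1).add ((hq 1 t).const_mul p2)))
      (fun t => by
        have := hpos (fun i => cu i - (p1 * cb i 0 + p2 * cb i 1)) t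
          (fun i => sub_nonneg.2 (fact_u i p1 p2 hP))
        convert this using 1
        simp only [mul_sub, mul_add, Finset.sum_sub_distrib, Finset.sum_add_distrib,
          Finset.mul_sum]
        congr 2 <;> exact Finset.sum_congr rfl fun i _ => by ring) hab
    simp only at this
    linarith
  obtain ⟨v0, v1, hv⟩ := cover hT.le (qc 0) (qc 1) hm e0 e1
  rw [hI0, sub_zero] at hv
  -- vertical part
  have hu'0 : ∀ i, 0 ≤ cu' i := fun i => by linarith [(fact_u' i).1, (fact_u' i).2]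
  have mI' : Monotone (I cu') := mono_of (hI cu') fun t => hpos _ t hu'0
  have m1 := mono_of (φ := fun t => I cu' t / 5 - q 2 t)
      (fun t => ((hI cu' t).div_const 5).sub (hq 2 t))
      (fun t => by
        have := hpos (fun i => cu' i / 5 - cb i 2) t (fun i => sub_nonneg.2 (fact_u' i).1)
        convert this using 1
        simp only [mul_sub, Finset.sum_sub_distrib, Finset.mul_sum, Finset.sum_div]
        congr 1; exact Finset.sum_congr rfl fun i _ => by ring)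
  have m2 := mono_of (φ := fun t => I cu' t / 5 + q 2 t)
      (fun t => ((hI cu' t).div_const 5).add (hq 2 t))
      (fun t => by
        have := hpos (fun i => cu' i / 5 + cb i 2) t (fun i => by linarith [(fact_u' i).2])
        convert this using 1
        simp only [mul_add, Finset.sum_add_distrib, Finset.mul_sum, Finset.sum_div]
        congr 1; exact Finset.sum_congr rfl fun i _ => by ring)
  have hrange : ∀ a ∈ Icc 0 T, ∀ b ∈ Icc 0 T, q 2 b - q 2 a ≤ I cu' T / 5 := by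
    intro a ha b hb
    have h1 := mI' ha.1
    have h2 := mI' ha.2
    have h3 := mI' hb.1
    have h4 := mI' hb.2
    rw [hI0] at h1 h3
    rcases le_total a b with h | h
    · have := m1 h
      simp only at this; linarith
    · have := m2 h
      simp only at this; linarith
  have ne : (Icc 0 T).Nonempty := nonempty_Icc.2 hT.le
  obtain ⟨a, ha, hamin⟩ := isCompact_Icc.exists_isMinOn ne (qc 2).continuousOn
  obtain ⟨b, hb, hbmax⟩ := isCompact_Icc.exists_isMaxOn ne (qc 2).continuousOn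
  set v2 := (q 2 a + q 2 b) / 2 with hv2
  have hab := hrange a ha b hb
  set L1 := I cu T with hL1
  set L2 := I cu' T with hL2
  set L3 := I cv T with hL3
  -- the action
  let A : Fin 3 → ℝ → ℝ := fun j t => κ * ∑ i, W i t * ca i j
  let B : Fin 3 → ℝ → ℝ := fun j t => κ * ∑ i, W i t * cb i j
  let Φ : ℝ → ℝ := fun t => 2 * (L1 / 30 + L2 / 30) * I cv t +
    (p 0 t * q 0 t + p 1 t * q 1 t + p 2 t * q 2 t) - 2 * (v0 * p 0 t + v1 * p 1 t + v2 * p 2 t)
    - κ * s * t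
  have hΦ : ∀ t, HasDerivAt Φ (2 * (L1 / 30 + L2 / 30) * (κ * ∑ i, W i t * cv i) +
      ((-A 0 t * q 0 t + p 0 t * B 0 t) + (-A 1 t * q 1 t + p 1 t * B 1 t) +
        (-A 2 t * q 2 t + p 2 t * B 2 t)) - 2 * (v0 * -A 0 t + v1 * -A 1 t + v2 * -A 2 t)
      - κ * s * 1) t := fun t =>
    ((((hI cv t).const_mul _).add ((((hp 0 t).mul (hq 0 t)).add ((hp 1 t).mul (hq 1 t))).add
      ((hp 2 t).mul (hq 2 t)))).sub (((((hp 0 t).const_mul v0).add ((hp 1 t).const_mul v1)).add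
      ((hp 2 t).const_mul v2)).const_mul 2)).sub ((hasDerivAt_id t).const_mul (κ * s))
  have hmon : MonotoneOn Φ (Icc 0 T) := by
    apply monotoneOn_of_deriv_nonneg (convex_Icc 0 T)
      (fun t _ => (hΦ t).continuousAt.continuousWithinAt)
      (fun t _ => (hΦ t).differentiableAt.differentiableWithinAt)
    intro t ht
    have ht' : t ∈ Icc 0 T := interior_subset ht
    rw [(hΦ t).deriv]
    have k1 : q 2 a ≤ q 2 t := hamin ht'
    have k2 : q 2 t ≤ q 2 b := hbmax ht'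
    have h1 := hpos (fun i => (L1 / 30 + L2 / 30) * cv i -
      ((q 0 t - v0) * ca i 0 + (q 1 t - v1) * ca i 1 + (q 2 t - v2) * ca i 2)) t
      (fun i => sub_nonneg.2 (fact_v i _ _ _ _ _ (hv t ht') (by linarith) (by linarith)))
    have h2 := mul_le_mul_of_nonneg_left (hs t) hκ.le
    have e1 : κ * ∑ i, W i t * ((L1 / 30 + L2 / 30) * cv i -
        ((q 0 t - v0) * ca i 0 + (q 1 t - v1) * ca i 1 + (q 2 t - v2) * ca i 2)) =
        (L1 / 30 + L2 / 30) * (κ * ∑ i, W i t * cv i) -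
        ((q 0 t - v0) * A 0 t + (q 1 t - v1) * A 1 t + (q 2 t - v2) * A 2 t) := by
      simp only [A, Finset.mul_sum, ← Finset.sum_add_distrib, ← Finset.sum_sub_distrib]
      exact Finset.sum_congr rfl fun i _ => by ring
    have e2 : κ * ∑ i, W i t * (ca i 0 * q 0 t + ca i 1 * q 1 t + ca i 2 * q 2 t +
        (cb i 0 * p 0 t + cb i 1 * p 1 t + cb i 2 * p 2 t)) =
        q 0 t * A 0 t + q 1 t * A 1 t + q 2 t * A 2 t +
        (p 0 t * B 0 t + p 1 t * B 1 t + p 2 t * B 2 t) := by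
      simp only [A, B, Finset.mul_sum, ← Finset.sum_add_distrib]
      exact Finset.sum_congr rfl fun i _ => by ring
    rw [e1] at h1
    rw [e2] at h2
    nlinarith
  have hfin := hmon (left_mem_Icc.2 hT.le) (right_mem_Icc.2 hT.le) hT.le
  simp only [Φ, hI0, e0, e1, e2, e3, e4, e5, ← hL3] at hfin
  have hsum : L1 + L2 + L3 = κ * T := by
    have hd : ∀ t, HasDerivAt (fun t => I cu t + I cu' t + I cv t - κ * t) 0 t := by
      intro t
      have := (((hI cu t).add (hI cu' t)).add (hI cv t)).sub ((hasDerivAt_id t).const_mul κ)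
      have e : κ * ∑ i, W i t * cu i + κ * ∑ i, W i t * cu' i + κ * ∑ i, W i t * cv i - κ * 1
          = 0 := by
        rw [← mul_add, ← mul_add, ← Finset.sum_add_distrib, ← Finset.sum_add_distrib]
        have : ∑ i, (W i t * cu i + W i t * cu' i + W i t * cv i) = ∑ i, W i t :=
          Finset.sum_congr rfl fun i _ => by rw [← mul_add, ← mul_add, fact_sum, mul_one]
        rw [this, hW1]; ring
      rw [e] at this
      exact this
    have := is_const_of_deriv_eq_zero (fun t => (hd t).differentiableAt)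
      (fun t => (hd t).deriv) T 0
    simp only [hI0] at this
    linarith
  have h1 : κ * s * T ≤ (κ * T) ^ 2 / 60 := by
    rw [← hsum]
    nlinarith [sq_nonneg (L1 + L2 - L3)]
  have h2 : κ * κ * T ≤ 599 / 10 * (κ * s * T) := by
    have : 0 < κ * T := by positivity
    nlinarith
  have h3 : 0 < κ * κ * T := by positivity
  by_contra h
  push Not at h
  nlinarith

noncomputable def Fn : Phase 3 → ℝ := F 32000 ell

theorem chord {f g : ℝ → ℝ} (hf : ∀ s, HasDerivAt f (g s) s) (hg0 : ∀ s, 0 ≤ g s)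
    (hg : ∀ s, g s ≠ 0 → g s ≤ 599 / 10 * (s - 1 / 2000)) (γ : ℝ → Phase 3)
    (hγ : ∀ t, HasDerivAt γ (hamVF 1 (f ∘ Fn) (γ t)) t) {T : ℝ} (hT : 0 < T)
    (h0 : γ 0 ∈ coiso 2) (h1 : γ T ∈ coiso 2) (hl : SameLeaf (γ 0) (γ T)) :
    (∀ t, γ t = γ 0) ∨ 600 / 599 ≤ T := by
  have hβ : (0 : ℝ) < 32000 := by norm_num
  have hd : ∀ x, fderiv ℝ (f ∘ Fn) x = g (Fn x) • ∑ i, w 32000 ell x i • ell i :=
    fun x => ((hf (Fn x)).comp_hasFDerivAt x (hasFDerivAt_F hβ ell x)).fderiv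
  have hb : ∀ i j, ell i (0, Pi.single j 1) = cb i j := by
    intro i j
    fin_cases j <;> simp [ell, lin_apply]
  have ha : ∀ i j, ell i (Pi.single j 1, 0) = ca i j := by
    intro i j
    fin_cases j <;> simp [ell, lin_apply]
  have hV : ∀ x, hamVF 1 (f ∘ Fn) x = (fun j => g (Fn x) * ∑ i, w 32000 ell x i * cb i j,
      fun j => -(g (Fn x) * ∑ i, w 32000 ell x i * ca i j)) := by
    intro x
    simp [hamVF, hd, ha, hb, ContinuousLinearMap.sum_apply]
  simp only [hV] at hγ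
  have hγc : Continuous γ := continuous_iff_continuousAt.2 fun t => (hγ t).continuousAt
  have hconst : ∀ t, Fn (γ t) = Fn (γ 0) := by
    have hz : ∀ t, HasDerivAt (fun t => Fn (γ t)) 0 t := by
      intro t
      have := (hasFDerivAt_F hβ ell (γ t)).comp_hasDerivAt t (hγ t)
      have e : (∑ i, w 32000 ell (γ t) i • ell i)
          (fun j => g (Fn (γ t)) * ∑ i, w 32000 ell (γ t) i * cb i j,
            fun j => -(g (Fn (γ t)) * ∑ i, w 32000 ell (γ t) i * ca i j)) = 0 := by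
        simp only [ContinuousLinearMap.sum_apply, ContinuousLinearMap.smul_apply, smul_eq_mul, ell,
          lin_apply, mul_add, Finset.sum_add_distrib, ← mul_assoc, ← Finset.sum_mul]
        ring
      rw [e] at this
      exact this
    exact fun t => is_const_of_deriv_eq_zero (fun t => (hz t).differentiableAt)
      (fun t => (hz t).deriv) t 0
  simp only [hconst] at hγ
  by_cases hκ : g (Fn (γ 0)) = 0
  · left
    have hz : ∀ t, HasDerivAt γ 0 t := by
      intro t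
      have := hγ t
      simp only [hκ, zero_mul, neg_zero] at this
      exact this
    exact fun t => is_const_of_deriv_eq_zero (fun t => (hz t).differentiableAt)
      (fun t => (hz t).deriv) t 0
  · right
    obtain ⟨c, hc⟩ := hl
    have c1 := congrArg (fun z : Phase 3 => z.1 0) hc
    have c2 := congrArg (fun z : Phase 3 => z.1 1) hc
    have c3 := congrArg (fun z : Phase 3 => z.2 0) hc
    have c4 := congrArg (fun z : Phase 3 => z.2 1) hc
    have l0 : (0 : Fin 3) ≠ Fin.last 2 := by decide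
    have l1 : (1 : Fin 3) ≠ Fin.last 2 := by decide
    simp [Pi.single_eq_of_ne l0, Pi.single_eq_of_ne l1, sub_eq_zero] at c1 c2 c3 c4
    refine chord_core (lt_of_le_of_ne (hg0 _) (Ne.symm hκ)) (hg _ hκ) hT
      (fun j t => (γ t).1 j) (fun j t => (γ t).2 j) (fun i t => w 32000 ell (γ t) i)
      (fun i => (continuous_w _ _ i).comp hγc) (fun i t => (w_pos _ _ _ _).le)
      (fun t => w_sum _ _ _) ?_ ?_ ?_ c1 c2 c3 c4 h1 h0
    · exact fun j t => hasDerivAt_pi.1 (hγ t).fst j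
    · exact fun j t => hasDerivAt_pi.1 (hγ t).snd j
    · intro t
      have := F_sub_le hβ ell (γ t)
      simp only [ell, lin_apply] at this
      have e : F 32000 (fun i => lin (ca i) (cb i)) (γ t) = Fn (γ 0) := hconst t
      have e' : ((Fintype.card (Fin 17) : ℝ) - 1) / 32000 = 1 / 2000 := by simp; norm_num
      have e'' : F 32000 ell (γ t) = Fn (γ 0) := hconst t
      rw [e', e''] at this
      exact this

theorem chord_sign {f g : ℝ → ℝ} (hf : ∀ s, HasDerivAt f (g s) s) (hg0 : ∀ s, 0 ≤ g s)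
    (hg : ∀ s, g s ≠ 0 → g s ≤ 599 / 10 * (s - 1 / 2000)) {σ : ℝ} (hσ : σ = 1 ∨ σ = -1)
    (γ : ℝ → Phase 3)
    (hγ : ∀ t, HasDerivAt γ (hamVF σ (f ∘ Fn) (γ t)) t) {T : ℝ} (hT : 0 < T)
    (h0 : γ 0 ∈ coiso 2) (h1 : γ T ∈ coiso 2) (hl : SameLeaf (γ 0) (γ T)) :
    (∀ t, γ t = γ 0) ∨ 600 / 599 ≤ T := by
  rcases hσ with rfl | rfl
  · exact chord hf hg0 hg γ hγ hT h0 h1 hl
  · have h := chord hf hg0 hg (fun t => γ (T - t)) (fun t => by
      have := (hγ (T - t)).scomp t ((hasDerivAt_id t).const_sub T)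
      have e : (-1 : ℝ) • hamVF (-1) (f ∘ Fn) (γ (T - t)) = hamVF 1 (f ∘ Fn) (γ (T - t)) := by
        ext j <;> simp [hamVF]
      rw [e] at this
      exact this) hT (by simpa using h1) (by simpa using h0) (by
        obtain ⟨c, hc⟩ := hl
        refine ⟨-c, ?_⟩
        simp only [sub_self, sub_zero]
        rw [neg_smul, ← hc, neg_sub])
    refine h.imp_left fun h t => ?_
    have a := h (T - t)
    have b := h T
    simp only [sub_sub_cancel, sub_self] at a b
    rw [a, b]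

theorem main : Convex ℝ (Dr 1) ∧ IsCompact (Dr 1) ∧ (interior (Dr 1) ∩ coiso 2).Nonempty ∧
    ∀ σ : ℝ, σ = 1 ∨ σ = -1 →
      ((Nat.factorial (2 + 1) : ℝ≥0∞) *
        min (volume (Dr 1 ∩ {x | 0 ≤ x.2 (Fin.last 2)}))
          (volume (Dr 1 ∩ {x | x.2 (Fin.last 2) ≤ 0}))) ^ (1 / ((2 + 1 : ℕ) : ℝ)) < cLR σ (Dr 1) := by
  have hβ : (0 : ℝ) < 32000 := by norm_num
  have z : ∀ r : ℝ, 0 ≤ r → (0 : Phase 3) ∈ Dr r := fun r hr i => by simpa using hr
  have zc : (0 : Phase 3) ∈ coiso 2 := rfl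
  refine ⟨convex_Dr 1, isCompact_Dr le_rfl,
    ⟨0, Dr_sub_interior (r := 0) (by norm_num) (z 0 le_rfl), zc⟩, fun σ hσ => ?_⟩
  obtain ⟨f, g, m, hs, hf, hg0, hg, hlow, hhigh, hb, hm⟩ := exists_profile
  have hsimple : IsSimple (k := 2) (Dr 1) (f ∘ Fn) m := by
    refine ⟨hs.comp (contDiff_F _ _), ⟨Dr (1 - 1 / 2000), isCompact_Dr (by norm_num),
      Dr_sub_interior (by norm_num), ⟨0, z _ (by norm_num), z _ (by norm_num), zc⟩, ?_⟩,
      ⟨{x | Fn x < 1 / 2000} ∪ {x | ‖x‖ < 0}, ?_, ?_, ?_⟩, fun x => hb _⟩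
    · intro x hx
      simp only [Dr, mem_ofPred_eq, not_forall, not_le] at hx
      obtain ⟨i, hi⟩ := hx
      exact hhigh _ (hi.le.trans (le_F hβ ell x i))
    · exact (isOpen_lt (contDiff_F _ _).continuous continuous_const).union
        (isOpen_lt continuous_norm continuous_const)
    · refine ⟨0, Or.inl ?_, z _ (by norm_num), zc⟩
      have h : Z 32000 ell 0 = 17 := by simp [Z]
      have h2 := Real.log_lt_sub_one_of_pos (x := 17) (by norm_num) (by norm_num)
      show F 32000 ell 0 < 1 / 2000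
      rw [F, h]
      linarith
    · rintro x (hx | hx)
      · exact hlow _ (le_of_lt hx)
      · exact absurd hx (not_lt.2 (norm_nonneg x))
  have hadm : IsAdmissible (k := 2) σ (Dr 1) (f ∘ Fn) := by
    intro γ hγ h0
    by_cases hc : ∀ t, γ t = γ 0
    · exact Or.inl hc
    · right
      refine lt_of_lt_of_le (b := ENNReal.ofReal (600 / 599)) (by norm_num) ?_
      refine le_iInf fun t => le_iInf fun ht => ENNReal.ofReal_le_ofReal ?_
      exact (chord_sign hf hg0 hg hσ γ hγ ht.1 h0.2 ht.2.1.2 ht.2.2).resolve_left hc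
  have hle : ENNReal.ofReal (2985 / 100) ≤ cLR σ (Dr 1) :=
    (ENNReal.ofReal_le_ofReal hm).trans
      (le_iSup_of_le (f ∘ Fn) (le_iSup_of_le m (le_iSup_of_le ⟨hsimple, hadm⟩ le_rfl)))
  refine lt_of_lt_of_le ?_ hle
  have h1 : (Nat.factorial (2 + 1) : ℝ≥0∞) *
        min (volume (Dr 1 ∩ {x | 0 ≤ x.2 (Fin.last 2)}))
          (volume (Dr 1 ∩ {x | x.2 (Fin.last 2) ≤ 0})) < ENNReal.ofReal (2985 / 100) ^ (3 : ℝ) := by
    refine lt_of_le_of_lt (mul_le_mul_right ((min_le_left _ _).trans vol_plus) _) ?_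
    rw [ENNReal.ofReal_rpow_of_nonneg (by norm_num) (by norm_num)]
    have : ((Nat.factorial (2 + 1) : ℕ) : ℝ≥0∞) = ENNReal.ofReal 6 := by
      simp [Nat.factorial]
    rw [this, ← ENNReal.ofReal_mul (by norm_num), ENNReal.ofReal_lt_ofReal_iff (by positivity)]
    norm_num
  have h2 := ENNReal.rpow_lt_rpow h1 (z := 1 / ((2 + 1 : ℕ) : ℝ)) (by norm_num)
  rw [← ENNReal.rpow_mul] at h2
  norm_num at h2 ⊢
  exact h2

end Pool.Agent.H649Z.LR
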