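import Pool.Agent.H649Z.LRDefs

/-! Log-sum-exp smoothing of a polytope gauge, and the profile function. -/

set_option autoImplicit false
set_option linter.unusedSectionVars false

namespace Pool.Agent.H649Z.LR

open scoped ContDiff
open Real

section soft

variable {X : Type} [NormedAddCommGroup X] [NormedSpace ℝ X] {ι : Type} [Fintype ι] [Nonempty ι]

noncomputable def Z (β : ℝ) (l : ι → X →L[ℝ] ℝ) (x : X) : ℝ := ∑ i, exp (β * l i x)

noncomputable def F (β : ℝ) (l : ι → X →L[ℝ] ℝ) (x : X) : ℝ := β⁻¹ * log (Z β l x)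

noncomputable def w (β : ℝ) (l : ι → X →L[ℝ] ℝ) (x : X) (i : ι) : ℝ := exp (β * l i x) / Z β l x

theorem Z_pos (β : ℝ) (l : ι → X →L[ℝ] ℝ) (x : X) : 0 < Z β l x :=
  Finset.sum_pos (fun _ _ => exp_pos _) Finset.univ_nonempty

theorem w_pos (β : ℝ) (l : ι → X →L[ℝ] ℝ) (x : X) (i : ι) : 0 < w β l x i :=
  div_pos (exp_pos _) (Z_pos β l x)

theorem w_sum (β : ℝ) (l : ι → X →L[ℝ] ℝ) (x : X) : ∑ i, w β l x i = 1 := by
  simp only [w]
  rw [← Finset.sum_div]
  exact div_self (Z_pos β l x).ne'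

theorem contDiff_Z (β : ℝ) (l : ι → X →L[ℝ] ℝ) : ContDiff ℝ ∞ (Z β l) := by
  unfold Z
  exact ContDiff.sum fun i _ => (contDiff_const.mul (l i).contDiff).exp

theorem contDiff_F (β : ℝ) (l : ι → X →L[ℝ] ℝ) : ContDiff ℝ ∞ (F β l) :=
  contDiff_const.mul ((contDiff_Z β l).log fun x => (Z_pos β l x).ne')

theorem continuous_w (β : ℝ) (l : ι → X →L[ℝ] ℝ) (i : ι) : Continuous fun x => w β l x i := by
  unfold w
  exact Continuous.div (by fun_prop) (contDiff_Z β l).continuous fun x => (Z_pos β l x).ne'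

theorem hasFDerivAt_F {β : ℝ} (hβ : 0 < β) (l : ι → X →L[ℝ] ℝ) (x : X) :
    HasFDerivAt (F β l) (∑ i, w β l x i • l i) x := by
  have h1 : HasFDerivAt (Z β l) (∑ i, exp (β * l i x) • (β • l i)) x := by
    unfold Z
    apply HasFDerivAt.fun_sum
    intro i _
    exact (((l i).hasFDerivAt (x := x)).const_mul β).exp
  have h2 := (h1.log (Z_pos β l x).ne').const_mul β⁻¹
  have e : (∑ i, w β l x i • l i) =
      β⁻¹ • (Z β l x)⁻¹ • ∑ i, exp (β * l i x) • (β • l i) := by
    have := (Z_pos β l x).ne'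
    rw [Finset.smul_sum, Finset.smul_sum]
    refine Finset.sum_congr rfl fun i _ => ?_
    rw [smul_smul, smul_smul, smul_smul]
    congr 1
    simp only [w]
    field_simp
  rw [e]
  exact h2

theorem le_F {β : ℝ} (hβ : 0 < β) (l : ι → X →L[ℝ] ℝ) (x : X) (i : ι) : l i x ≤ F β l x := by
  have h1 : exp (β * l i x) ≤ Z β l x :=
    Finset.single_le_sum (f := fun i => exp (β * l i x)) (fun _ _ => (exp_pos _).le)
      (Finset.mem_univ i)
  have h2 := (le_log_iff_exp_le (Z_pos β l x)).2 h1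
  unfold F
  rw [inv_mul_eq_div, le_div_iff₀ hβ]
  linarith

theorem F_zero_le {β : ℝ} (hβ : 0 < β) (l : ι → X →L[ℝ] ℝ) :
    F β l 0 ≤ (Fintype.card ι - 1) / β := by
  have h : Z β l 0 = Fintype.card ι := by simp [Z]
  unfold F
  rw [h, inv_mul_eq_div]
  gcongr
  exact log_le_sub_one_of_pos (by exact_mod_cast Fintype.card_pos)

theorem F_sub_le {β : ℝ} (hβ : 0 < β) (l : ι → X →L[ℝ] ℝ) (x : X) :
    F β l x - (Fintype.card ι - 1) / β ≤ ∑ i, w β l x i * l i x := by
  have h : ∀ i, w β l x i * (β * (F β l x - l i x)) ≤ 1 - w β l x i := by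
    intro i
    have hw := w_pos β l x i
    have e : β * (F β l x - l i x) = log (w β l x i)⁻¹ := by
      rw [log_inv, w, log_div (exp_pos _).ne' (Z_pos β l x).ne', log_exp, F]
      field_simp
      ring
    have := log_le_sub_one_of_pos (inv_pos.2 hw)
    rw [e]
    calc w β l x i * log (w β l x i)⁻¹ ≤ w β l x i * ((w β l x i)⁻¹ - 1) := by gcongr
      _ = 1 - w β l x i := by field_simp
  have h2 := Finset.sum_le_sum (s := Finset.univ) fun i _ => h i
  have e1 : ∑ i, w β l x i * (β * (F β l x - l i x))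
      = β * (F β l x - ∑ i, w β l x i * l i x) := by
    have : ∀ i, w β l x i * (β * (F β l x - l i x))
        = β * F β l x * w β l x i - β * (w β l x i * l i x) := fun i => by ring
    simp only [this, Finset.sum_sub_distrib, ← Finset.mul_sum, w_sum]
    ring
  have e2 : ∑ i, (1 - w β l x i) = Fintype.card ι - 1 := by
    simp [Finset.sum_sub_distrib, w_sum]
  rw [e1, e2] at h2
  have : F β l x - ∑ i, w β l x i * l i x ≤ (Fintype.card ι - 1) / β := by
    rw [le_div_iff₀ hβ]; linarith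
  linarith

end soft

/-- the profile function -/
theorem exists_profile : ∃ (f g : ℝ → ℝ) (m : ℝ), ContDiff ℝ ∞ f ∧ (∀ s, HasDerivAt f (g s) s) ∧
    (∀ s, 0 ≤ g s) ∧ (∀ s, g s ≠ 0 → g s ≤ 599 / 10 * (s - 1 / 2000)) ∧
    (∀ s, s ≤ 1 / 2000 → f s = 0) ∧ (∀ s, 1 - 1 / 2000 ≤ s → f s = m) ∧
    (∀ s, 0 ≤ f s ∧ f s ≤ m) ∧ 2985 / 100 ≤ m := by
  let χ : ContDiffBump (1 / 2 : ℝ) := ⟨1 / 2 - 2 / 2000, 1 / 2 - 1 / 2000, by norm_num, by norm_num⟩
  let g : ℝ → ℝ := fun s => 599 / 10 * (s - 1 / 2000) * χ s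
  have hg : ContDiff ℝ ∞ g := by
    apply ContDiff.mul _ χ.contDiff
    fun_prop
  have hz : ∀ s, (s ≤ 1 / 2000 ∨ 1 - 1 / 2000 ≤ s) → g s = 0 := by
    intro s hs
    have : χ s = 0 := by
      apply χ.zero_of_le_dist
      rw [Real.dist_eq]
      show 1 / 2 - 1 / 2000 ≤ |s - 1 / 2|
      rcases hs with hs | hs
      · rw [abs_of_nonpos (by linarith)]; linarith
      · rw [abs_of_nonneg (by linarith)]; linarith
    simp [g, this]
  have hg0 : ∀ s, 0 ≤ g s := by
    intro s
    by_cases hs : s ≤ 1 / 2000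
    · rw [hz s (Or.inl hs)]
    · have := χ.nonneg' s
      have h2 : 0 ≤ s - 1 / 2000 := by linarith
      simp only [g]; positivity
  let f : ℝ → ℝ := fun s => ∫ u in (0 : ℝ)..s, g u
  have hf : ∀ s, HasDerivAt f (g s) s := fun s =>
    (hg.continuous.integral_hasStrictDerivAt 0 s).hasDerivAt
  have hfd : Differentiable ℝ f := fun s => (hf s).differentiableAt
  have hdf : deriv f = g := funext fun s => (hf s).deriv
  have hmono : Monotone f := monotone_of_deriv_nonneg hfd (by rw [hdf]; exact hg0)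
  have hint : ∀ a b, IntervalIntegrable g MeasureTheory.volume a b :=
    fun a b => hg.continuous.intervalIntegrable a b
  have hlow : ∀ s, s ≤ 1 / 2000 → f s = 0 := by
    intro s hs
    simp only [f]
    rw [intervalIntegral.integral_congr (g := fun _ => (0 : ℝ))]
    · simp
    · intro u hu
      apply hz u (Or.inl _)
      rcases Set.mem_uIcc.1 hu with h | h <;> linarith [h.1, h.2]
  have hhigh : ∀ s, 1 - 1 / 2000 ≤ s → f s = f (1 - 1 / 2000) := by
    intro s hs
    simp only [f]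
    rw [← intervalIntegral.integral_add_adjacent_intervals (hint 0 (1 - 1 / 2000)) (hint _ s),
      intervalIntegral.integral_congr (a := 1 - 1 / 2000) (g := fun _ => (0 : ℝ))]
    · simp
    · intro u hu
      apply hz u (Or.inr _)
      rcases Set.mem_uIcc.1 hu with h | h <;> linarith [h.1, h.2]
  refine ⟨f, g, f (1 - 1 / 2000), ?_, hf, hg0, ?_, hlow, hhigh, ?_, ?_⟩
  · rw [contDiff_infty_iff_deriv]
    exact ⟨hfd, by rw [hdf]; exact hg⟩
  · intro s hs
    have h1 : ¬ s ≤ 1 / 2000 := fun h => hs (hz s (Or.inl h))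
    have h2 : 0 ≤ 599 / 10 * (s - 1 / 2000) := by linarith
    exact mul_le_of_le_one_right h2 χ.le_one
  · intro s
    constructor
    · rcases le_total s 0 with h | h
      · rw [hlow s (by linarith)]
      · rw [← hlow 0 (by norm_num)]; exact hmono h
    · rcases le_total s (1 - 1 / 2000) with h | h
      · exact hmono h
      · rw [hhigh s h]
  · have h1 : f (2 / 2000) + ∫ u in (2 / 2000 : ℝ)..(1 - 2 / 2000), g u = f (1 - 2 / 2000) :=
      intervalIntegral.integral_add_adjacent_intervals (hint _ _) (hint _ _)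
    have h2 : ∫ u in (2 / 2000 : ℝ)..(1 - 2 / 2000), g u
        = ∫ u in (2 / 2000 : ℝ)..(1 - 2 / 2000), (599 / 10 * u - 599 / 20000) := by
      apply intervalIntegral.integral_congr
      intro u hu
      have : χ u = 1 := by
        apply χ.one_of_mem_closedBall
        rw [Metric.mem_closedBall, Real.dist_eq]
        show |u - 1 / 2| ≤ 1 / 2 - 2 / 2000
        rw [abs_le]
        rcases Set.mem_uIcc.1 hu with h | h <;> constructor <;> linarith [h.1, h.2]
      simp only [g, this]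
      ring
    have h3 : ∫ u in (2 / 2000 : ℝ)..(1 - 2 / 2000), (599 / 10 * u - 599 / 20000)
        = 599 / 10 * (((1 - 2 / 2000) ^ 2 - (2 / 2000) ^ 2) / 2)
          - (1 - 2 / 2000 - 2 / 2000) * (599 / 20000) := by
      rw [intervalIntegral.integral_sub (by apply Continuous.intervalIntegrable; fun_prop)
        (by apply Continuous.intervalIntegrable; fun_prop), intervalIntegral.integral_const_mul,
        integral_id, intervalIntegral.integral_const, smul_eq_mul]
    have h4 : 0 ≤ f (2 / 2000) := by rw [← hlow 0 (by norm_num)]; exact hmono (by norm_num)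
    have h5 : f (1 - 2 / 2000) ≤ f (1 - 1 / 2000) := hmono (by norm_num)
    rw [h2, h3] at h1
    norm_num at h1 h4 h5 ⊢
    linarith

end Pool.Agent.H649Z.LR
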