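import Pool.Agent.H649Z.Data

/-! The two systems. -/

set_option autoImplicit false

namespace Pool.Agent.H649Z.Cox

open Matrix Filter Topology

theorem single_eq_cast {n : ℕ} (u : Fin n) :
    (Pi.single u (1 : ℝ) : Fin n → ℝ) = fun i => (((if i = u then 1 else 0 : ℤ)) : ℝ) := by
  funext i
  by_cases h : i = u <;> simp [h]

theorem lamA_pos : (0 : ℤ) < lamA := by decide
theorem lamB_pos : (0 : ℤ) < lamB := by decide

theorem mapsA (t u : Fin 4) (h : u ≠ t) :
    Maps (cz (sA u)) (cone (cz (genA u))) (cone (cz (genA t))) :=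
  maps_of_cert (lam := (lamA : ℝ)) (by exact_mod_cast lamA_pos)
    (fun i j => by
      have := certA_nonneg t u i j
      simp only [cz, map_apply]; exact_mod_cast this)
    (cert_cast (certA_eq t u h))

theorem fdA (t u w : Fin 4) (h : u ≠ t) (h' : w ≠ u) (hg : w ≠ t ∨ GA t u ≠ -1) :
    FD (cz (sA u) * cz (sA w)) (cone (cz (genA w))) (cone (cz (genA t))) (KA : ℝ) := by
  have e1 := cert_cast (certA_eq t u h)
  have e2 := cert_cast (certA_eq u w h')
  have hl : (0 : ℝ) < lamA := by exact_mod_cast lamA_pos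
  apply fd_of_cert (lam := (lamA : ℝ) * lamA) (A := cz (certA t u) * cz (certA u w))
    (by positivity)
  · intro i j
    have := certA_pos t u w h h' hg i j
    rw [← cz_mul]
    simp only [cz, map_apply, Matrix.mul_apply]
    exact ⟨by exact_mod_cast this.1, by exact_mod_cast this.2⟩
  · rw [← Matrix.mul_assoc (cz (genA t)), ← e1, Matrix.smul_mul, Matrix.mul_assoc (cz (sA u)),
      Matrix.mul_assoc (cz (sA u)), ← e2, Matrix.mul_smul, smul_smul]

theorem sysA (s : ℕ → Fin 4) (hs : ∀ j, s (j + 1) ≠ s j) :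
    ∃! x : Fin 4 → ℝ, AccPt x (Filter.principal (Set.range fun k : ℕ =>
      (∑ i, (Matrix.mulVec (List.ofFn fun j : Fin k => cz (sA (s j))).prod
          (Pi.single (s k) (1 : ℝ) : Fin 4 → ℝ)) i)⁻¹ •
        Matrix.mulVec (List.ofFn fun j : Fin k => cz (sA (s j))).prod
          (Pi.single (s k) (1 : ℝ) : Fin 4 → ℝ))) := by
  let T : ℕ → Matrix (Fin 4) (Fin 4) ℝ := fun j => cz (sA (s j))
  let C : ℕ → Set (Fin 4 → ℝ) := fun j =>
    match j with
    | 0 => topCone ((1 : ℤ) : ℝ)
    | j + 1 => cone (cz (genA (s j)))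
  have hT : ∀ j v, T j *ᵥ v = 0 → v = 0 := fun j v => inj_of_invol (sA_invol _) v
  have hC : ∀ j, IsCone (C j) := by
    intro j
    cases j with
    | zero => exact isCone_top _
    | succ j => exact isCone_cone _
  have H1 : ∀ j, Maps (T j) (C (j + 1)) (C j) := by
    intro j
    cases j with
    | zero => exact maps_top_of_int (by norm_num) (topA _) (topA' _)
    | succ j => exact mapsA _ _ (hs j)
  have hinit : ∀ k, tail T s (k + 1) (k + 1) ∈ C (k + 1) := by
    intro k
    rw [tail_self, single_eq_cast]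
    exact mem_cone_of_cert lamA_pos (initA_nonneg _ _) (initA_eq _ _ (hs k))
  have hmem : ∀ d j, 1 ≤ j + d → tail T s j (j + d) ∈ C j := by
    intro d
    induction d with
    | zero =>
      intro j hj
      obtain ⟨k, rfl⟩ : ∃ k, j = k + 1 := ⟨j - 1, by omega⟩
      exact hinit k
    | succ d ih =>
      intro j _
      rw [tail_step T s j _ (by omega)]
      apply H1
      have e : j + (d + 1) = j + 1 + d := by omega
      rw [e]
      exact ih (j + 1) (by omega)
  have H3 : ∀ j, ∃ N, ∀ k, N ≤ k → tail T s j k ∈ C j ∧ tail T s j k ≠ 0 := by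
    intro j
    refine ⟨j + 1, fun k hk => ⟨?_, tail_ne_zero T s hT _ _⟩⟩
    obtain ⟨d, rfl⟩ : ∃ d, k = j + d := ⟨k - j, by omega⟩
    exact hmem d j (by omega)
  have hneg : ∀ j, T j *ᵥ Pi.single (s j) 1 = -Pi.single (s j) 1 := by
    intro j
    simp only [T]
    rw [cz_single, single_eq_cast]
    funext i
    rw [sA_neg]
    simp
  have hc : (0 : ℝ) < ((1 : ℤ) : ℝ) := by norm_num
  apply final (T := T) hc hT hneg
  · obtain ⟨N, hN⟩ := H3 0
    exact ⟨N, fun k hk => (hN k hk).1⟩
  by_cases hg : ∀ N, ∃ j, N ≤ j ∧ (s (j + 2) ≠ s j ∨ GA (s j) (s (j + 1)) ≠ -1)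
  · refine core C T (tail T s) (KA : ℝ) _ (by norm_num [KA]) hc hC rfl
      (fun j k h => tail_step T s j k h) H1 ?_ H3
    intro N
    obtain ⟨j, hj, h⟩ := hg N
    exact ⟨j + 1, by omega, fdA _ _ _ (hs j) (hs (j + 1)) h⟩
  · push Not at hg
    obtain ⟨N, hN⟩ := hg
    have hform : ∀ d j, N ≤ j → tail T s j (j + d) =
        (d : ℝ) • (Pi.single (s j) 1 + Pi.single (s (j + 1)) 1) + Pi.single (s j) 1 := by
      intro d
      induction d with
      | zero => intro j _; simp [tail_self]
      | succ d ih =>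
        intro j hj
        rw [tail_step T s j _ (by omega)]
        have e : j + (d + 1) = j + 1 + d := by omega
        rw [e, ih (j + 1) (by omega), (hN j hj).1, mulVec_add, mulVec_smul, mulVec_add, hneg]
        have h2 : T j *ᵥ Pi.single (s (j + 1)) 1 =
            Pi.single (s (j + 1)) 1 + (2 : ℝ) • Pi.single (s j) 1 := by
          simp only [T]
          rw [cz_single, single_eq_cast, single_eq_cast]
          funext i
          rw [parA' _ _ (hN j hj).2]
          simp
        rw [h2]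
        funext i
        simp only [Pi.add_apply, Pi.smul_apply, Pi.neg_apply, smul_eq_mul]
        push_cast
        ring
    have hp : (Pi.single (s (N + 1)) 1 + Pi.single (s (N + 1 + 1)) 1 : Fin 4 → ℝ) ∈ C (N + 1) := by
      obtain ⟨l, hl⟩ := parA _ _ (hN N le_rfl).2
      refine ⟨Pi.single l 1, fun m => ?_, ?_⟩
      · by_cases h : m = l <;> simp [h]
      · rw [(hN N le_rfl).1, single_eq_cast, single_eq_cast]
        funext i
        simp only [mulVec, dotProduct, cz, map_apply, Pi.single_apply, mul_ite, mul_one, mul_zero,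
          Finset.sum_ite_eq', Finset.mem_univ, if_true, Pi.add_apply]
        rw [hl i]
        push_cast
        ring
    have hU := W_maps T C H1 (N + 1) 0 _ (by simpa using hp)
    have hU0 : W T 0 (N + 1) *ᵥ
        (Pi.single (s (N + 1)) 1 + Pi.single (s (N + 1 + 1)) 1 : Fin 4 → ℝ) ≠ 0 := by
      intro h
      have h1 := congrFun (W_inj T hT _ _ _ h) (s (N + 1))
      have h2 : s (N + 1) ≠ s (N + 1 + 1) := (hs (N + 1)).symm
      simp [h2] at h1
    have hlim := tendsto_nrm_line (V := W T 0 (N + 1) *ᵥ Pi.single (s (N + 1)) 1) hc hU hU0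
    refine ⟨_, (tendsto_add_atTop_iff_nat (N + 1)).1 (hlim.congr fun d => ?_)⟩
    congr 1
    have e : tail T s 0 (d + (N + 1)) = W T 0 (N + 1) *ᵥ tail T s (N + 1) (N + 1 + d) := by
      simp only [tail, Nat.sub_zero, Nat.add_sub_cancel_left]
      rw [mulVec_mulVec, add_comm d, W_add, zero_add]
    rw [e, hform d (N + 1) (by omega)]
    simp only [mulVec_add, mulVec_smul]

theorem mapsB (D : St) (u : Fin 5) (h : ¬ memB D u) :
    FD (cz (sB u)) (cone (cz (genB (nxtB D u)))) (cone (cz (genB D))) (KB : ℝ) :=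
  fd_of_cert (lam := (lamB : ℝ)) (by exact_mod_cast lamB_pos)
    (fun i j => by
      have := certB_pos D u h i j
      simp only [cz, map_apply]
      exact ⟨by exact_mod_cast this.1, by exact_mod_cast this.2⟩)
    (cert_cast (certB_eq D u h))

/-- the state after reading the letters `s 0, …, s j` -/
def stB (s : ℕ → Fin 5) : ℕ → St
  | 0 => (0, s 0)
  | j + 1 => nxtB (stB s j) (s (j + 1))

theorem sysB (s : ℕ → Fin 5) (hs : ∀ j, ¬ memB (stB s j) (s (j + 1))) :
    ∃! x : Fin 5 → ℝ, AccPt x (Filter.principal (Set.range fun k : ℕ =>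
      (∑ i, (Matrix.mulVec (List.ofFn fun j : Fin k => cz (sB (s j))).prod
          (Pi.single (s k) (1 : ℝ) : Fin 5 → ℝ)) i)⁻¹ •
        Matrix.mulVec (List.ofFn fun j : Fin k => cz (sB (s j))).prod
          (Pi.single (s k) (1 : ℝ) : Fin 5 → ℝ))) := by
  let T : ℕ → Matrix (Fin 5) (Fin 5) ℝ := fun j => cz (sB (s j))
  let C : ℕ → Set (Fin 5 → ℝ) := fun j =>
    match j with
    | 0 => topCone ((17 : ℤ) : ℝ)
    | j + 1 => cone (cz (genB (stB s j)))
  have hT : ∀ j v, T j *ᵥ v = 0 → v = 0 := fun j v => inj_of_invol (sB_invol _) v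
  have hC : ∀ j, IsCone (C j) := by
    intro j
    cases j with
    | zero => exact isCone_top _
    | succ j => exact isCone_cone _
  have hFD : ∀ j, FD (T (j + 1)) (C (j + 2)) (C (j + 1)) (KB : ℝ) :=
    fun j => mapsB _ _ (hs j)
  have H1 : ∀ j, Maps (T j) (C (j + 1)) (C j) := by
    intro j
    cases j with
    | zero => exact maps_top_of_int (by norm_num) (topB _) (topB' _)
    | succ j => exact (hFD j).maps (hC (j + 1))
  have hmem : ∀ d j k, k = j + 1 + d → tail T s (j + 1) k ∈ C (j + 1) ∨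
      (tail T s (j + 1) k = Pi.single (s k) 1 ∧ ¬ memB (stB s j) (s k) ∧
        ∀ i, j + 1 ≤ i → i < k → GB (s k) (s i) = 0) := by
    intro d
    induction d with
    | zero =>
      intro j k hk
      simp only [add_zero] at hk
      subst hk
      exact Or.inr ⟨tail_self _ _ _, hs j, fun i h1 h2 => by omega⟩
    | succ d ih =>
      intro j k hk
      rw [tail_step T s (j + 1) k (by omega)]
      rcases ih (j + 1) k (by omega) with h | ⟨h1, h2, h3⟩
      · exact Or.inl (H1 _ _ h)
      · have h4 := (memB_nxt _ _ (hs j) (s k)).not.1 h2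
        push Not at h4
        rw [h1]
        simp only [T]
        rw [cz_single]
        by_cases hz : GB (s k) (s (j + 1)) = 0
        · refine Or.inr ⟨?_, fun hm => h4.2 hm hz, fun i hi1 hi2 => ?_⟩
          · rw [single_eq_cast]
            funext a
            rw [sB_comm _ _ hz]
          · rcases Nat.eq_or_lt_of_le hi1 with rfl | hi
            · exact hz
            · exact h3 i hi hi2
        · exact Or.inl (mem_cone_of_cert lamB_pos (initB_nonneg _ _ _)
            (initB_eq _ _ _ (hs j) h4.1 hz))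
  have H3' : ∀ j, ∃ N, ∀ k, N ≤ k → tail T s (j + 1) k ∈ C (j + 1) := by
    intro j
    have hfin : {k | j + 1 ≤ k ∧ tail T s (j + 1) k ∉ C (j + 1)}.Finite := by
      apply Set.Finite.of_injOn (f := s) (t := Set.univ) (Set.mapsTo_univ _ _) _ Set.finite_univ
      have aux : ∀ k k', j + 1 ≤ k → k < k' → tail T s (j + 1) k' ∉ C (j + 1) → s k ≠ s k' := by
        intro k k' h1 h2 h3 h4
        rcases hmem (k' - (j + 1)) j k' (by omega) with h | ⟨-, -, h⟩
        · exact h3 h
        · have := h k h1 h2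
          rw [h4] at this
          exact GB_self _ this
      intro k hk k' hk' he
      rcases lt_trichotomy k k' with h | h | h
      · exact absurd he (aux k k' hk.1 h hk'.2)
      · exact h
      · exact absurd he.symm (aux k' k hk'.1 h hk.2)
    obtain ⟨N, hN⟩ := hfin.bddAbove
    refine ⟨max (N + 1) (j + 1), fun k hk => ?_⟩
    by_contra h
    have := hN ⟨le_of_max_le_right hk, h⟩
    have := le_of_max_le_left hk
    omega
  have H3 : ∀ j, ∃ N, ∀ k, N ≤ k → tail T s j k ∈ C j ∧ tail T s j k ≠ 0 := by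
    intro j
    obtain ⟨N, hN⟩ := H3' j
    refine ⟨max N (j + 1), fun k hk => ⟨?_, tail_ne_zero T s hT _ _⟩⟩
    rw [tail_step T s j k (le_of_max_le_right hk)]
    exact H1 _ _ (hN k (le_of_max_le_left hk))
  have hneg : ∀ j, T j *ᵥ Pi.single (s j) 1 = -Pi.single (s j) 1 := by
    intro j
    simp only [T]
    rw [cz_single, single_eq_cast]
    funext i
    rw [sB_neg]
    simp
  have hc : (0 : ℝ) < ((17 : ℤ) : ℝ) := by norm_num
  apply final (T := T) hc hT hneg
  · obtain ⟨N, hN⟩ := H3 0
    exact ⟨N, fun k hk => (hN k hk).1⟩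
  refine core C T (tail T s) (KB : ℝ) _ (by norm_num [KB]) hc hC rfl
    (fun j k h => tail_step T s j k h) H1 ?_ H3
  intro N
  exact ⟨N + 1, by omega, (hFD N).comp (H1 _) (hT _)⟩

theorem redA {M : CoxeterMatrix (Fin 4)} (s : ℕ → Fin 4)
    (hred : ∀ k : ℕ, M.toCoxeterSystem.IsReduced (List.ofFn fun j : Fin k => s j)) :
    ∀ j, s (j + 1) ≠ s j :=
  next_not_mem s hred s (fun q t => t = q) (fun _ h => h) (fun _ _ _ h => Or.inl h)

theorem redB {M : CoxeterMatrix (Fin 5)}
    (hM : ∀ i j : Fin 5, i ≠ j → M i j = if i - j = 1 ∨ j - i = 1 then 0 else 2) (s : ℕ → Fin 5)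
    (hred : ∀ k : ℕ, M.toCoxeterSystem.IsReduced (List.ofFn fun j : Fin k => s j)) :
    ∀ j, ¬ memB (stB s j) (s (j + 1)) := by
  apply next_not_mem s hred (stB s) memB (fun t h => memB_zero _ _ h)
  intro j hj t ht
  rcases (memB_nxt _ _ hj t).1 ht with h | ⟨h1, h2⟩
  · exact Or.inl h
  · refine Or.inr ⟨h1, ?_⟩
    obtain ⟨h3, h4⟩ := GB_zero _ _ h2
    rw [hM _ _ h3, if_neg h4]

end Pool.Agent.H649Z.Cox
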