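import Pool.Agent.H649Z.Cone

/-! Tails of infinite words and the link with reduced words. -/

set_option autoImplicit false
set_option linter.unusedSectionVars false

namespace Pool.Agent.H649Z.Cox

open Matrix Filter Topology

variable {ι : Type} [Fintype ι] [DecidableEq ι]

/-- product of `d` consecutive matrices from position `j` -/
def W (T : ℕ → Matrix ι ι ℝ) : ℕ → ℕ → Matrix ι ι ℝ
  | _, 0 => 1
  | j, d + 1 => T j * W T (j + 1) d

theorem ofFn_prod (T : ℕ → Matrix ι ι ℝ) (d : ℕ) :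
    ∀ j, (List.ofFn fun i : Fin d => T (j + i)).prod = W T j d := by
  induction d with
  | zero => intro j; simp [W]
  | succ d ih =>
    intro j
    rw [List.ofFn_succ, List.prod_cons, W, ← ih (j + 1)]
    congr 3
    funext i
    simp only [Fin.val_succ]
    congr 1
    omega

theorem ofFn_prod_zero (T : ℕ → Matrix ι ι ℝ) (d : ℕ) :
    (List.ofFn fun i : Fin d => T i).prod = W T 0 d := by
  rw [← ofFn_prod T d 0]
  simp

theorem W_succ_right (T : ℕ → Matrix ι ι ℝ) (d : ℕ) :
    ∀ j, W T j (d + 1) = W T j d * T (j + d) := by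
  induction d with
  | zero => intro j; simp [W]
  | succ d ih =>
    intro j
    rw [W, ih (j + 1), W, Matrix.mul_assoc]
    congr 3
    omega

theorem W_add (T : ℕ → Matrix ι ι ℝ) (d e : ℕ) :
    ∀ j, W T j (d + e) = W T j d * W T (j + d) e := by
  induction d with
  | zero => intro j; simp [W]
  | succ d ih =>
    intro j
    have : d + 1 + e = (d + e) + 1 := by omega
    rw [this, W, ih (j + 1), W, Matrix.mul_assoc]
    congr 3
    omega

theorem W_inj (T : ℕ → Matrix ι ι ℝ) (hT : ∀ j v, T j *ᵥ v = 0 → v = 0) (d : ℕ) :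
    ∀ j v, W T j d *ᵥ v = 0 → v = 0 := by
  induction d with
  | zero => intro j v h; simpa [W] using h
  | succ d ih =>
    intro j v h
    rw [W, ← mulVec_mulVec] at h
    exact ih _ _ (hT _ _ h)

theorem W_maps (T : ℕ → Matrix ι ι ℝ) (C : ℕ → Set (ι → ℝ))
    (H1 : ∀ j, Maps (T j) (C (j + 1)) (C j)) (d : ℕ) :
    ∀ j, Maps (W T j d) (C (j + d)) (C j) := by
  induction d with
  | zero => intro j v h; simpa [W] using h
  | succ d ih =>
    intro j v h
    rw [W, ← mulVec_mulVec]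
    apply H1
    apply ih
    have : j + 1 + d = j + (d + 1) := by omega
    rw [this]; exact h

/-- tail root -/
noncomputable def tail (T : ℕ → Matrix ι ι ℝ) (s : ℕ → ι) (j k : ℕ) : ι → ℝ :=
  W T j (k - j) *ᵥ Pi.single (s k) 1

theorem tail_self (T : ℕ → Matrix ι ι ℝ) (s : ℕ → ι) (k : ℕ) :
    tail T s k k = Pi.single (s k) 1 := by
  rw [tail, Nat.sub_self, W, one_mulVec]

theorem tail_step (T : ℕ → Matrix ι ι ℝ) (s : ℕ → ι) (j k : ℕ) (h : j < k) :
    tail T s j k = T j *ᵥ tail T s (j + 1) k := by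
  have : k - j = (k - (j + 1)) + 1 := by omega
  rw [tail, this, W, tail, mulVec_mulVec]

theorem single_ne_zero (a : ι) : (Pi.single a (1 : ℝ) : ι → ℝ) ≠ 0 := by
  intro h
  have := congrFun h a
  simp at this

theorem tail_ne_zero (T : ℕ → Matrix ι ι ℝ) (s : ℕ → ι) (hT : ∀ j v, T j *ᵥ v = 0 → v = 0)
    (j k : ℕ) : tail T s j k ≠ 0 :=
  fun h => single_ne_zero _ (W_inj T hT _ _ _ h)

theorem final {T : ℕ → Matrix ι ι ℝ} {s : ℕ → ι} {c : ℝ} (hc : 0 < c)
    (hT : ∀ j v, T j *ᵥ v = 0 → v = 0)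
    (hneg : ∀ j, T j *ᵥ Pi.single (s j) 1 = -Pi.single (s j) 1)
    (htop : ∃ N, ∀ k, N ≤ k → tail T s 0 k ∈ topCone c)
    (hconv : ∃ x, Tendsto (fun k => nrm (tail T s 0 k)) atTop (𝓝 x)) :
    ∃! x : ι → ℝ, AccPt x (Filter.principal (Set.range fun k : ℕ =>
      (∑ i, (Matrix.mulVec (List.ofFn fun j : Fin k => T j).prod
          (Pi.single (s k) (1 : ℝ) : ι → ℝ)) i)⁻¹ •
        Matrix.mulVec (List.ofFn fun j : Fin k => T j).prod
          (Pi.single (s k) (1 : ℝ) : ι → ℝ))) := by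
  obtain ⟨x, hx⟩ := hconv
  obtain ⟨N₀, hN₀⟩ := htop
  have e : (fun k : ℕ =>
      (∑ i, (Matrix.mulVec (List.ofFn fun j : Fin k => T j).prod
          (Pi.single (s k) (1 : ℝ) : ι → ℝ)) i)⁻¹ •
        Matrix.mulVec (List.ofFn fun j : Fin k => T j).prod
          (Pi.single (s k) (1 : ℝ) : ι → ℝ)) = fun k => nrm (tail T s 0 k) := by
    funext k
    rw [ofFn_prod_zero]
    rfl
  rw [e]
  apply existsUnique_accPt hx
  intro N
  refine ⟨max N N₀, le_max_left _ _, ?_⟩
  set k := max N N₀ with hk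
  have hk0 : N₀ ≤ k := le_max_right _ _
  have p1 := sum_pos_of_top hc (hN₀ k hk0) (tail_ne_zero T s hT _ _)
  have p2 := sum_pos_of_top hc (hN₀ (k + 1) (by omega)) (tail_ne_zero T s hT _ _)
  intro h
  simp only [nrm] at h
  set a := ∑ i, tail T s 0 k i
  set b := ∑ i, tail T s 0 (k + 1) i
  have e1 : tail T s 0 k = W T 0 (k + 1) *ᵥ (-Pi.single (s k) 1) := by
    rw [W_succ_right, ← mulVec_mulVec, mulVec_neg, zero_add, hneg, neg_neg]
    rfl
  have e2 : tail T s 0 (k + 1) = W T 0 (k + 1) *ᵥ (Pi.single (s (k + 1)) 1) := rfl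
  rw [e1, e2, ← mulVec_smul, ← mulVec_smul, ← sub_eq_zero, ← mulVec_sub] at h
  have h3 := W_inj T hT _ _ _ h
  have h4 := congrArg (fun w : ι → ℝ => ∑ i, w i) h3
  simp only [Pi.sub_apply, Pi.smul_apply, Pi.neg_apply, smul_eq_mul, Finset.sum_sub_distrib,
    ← Finset.mul_sum, Finset.sum_neg_distrib, Pi.zero_apply, Finset.sum_const_zero] at h4
  have s1 : ∀ t : ι, ∑ i, (Pi.single t (1 : ℝ) : ι → ℝ) i = 1 := by
    intro t; simp [Pi.single_apply]
  rw [s1, s1] at h4
  have : 0 < a⁻¹ := by positivity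
  have : 0 < b⁻¹ := by positivity
  linarith

/-- In a reduced infinite word, a letter recorded in the state cannot come next. -/
theorem next_not_mem {B Q : Type} {M : CoxeterMatrix B} (s : ℕ → B)
    (hred : ∀ k : ℕ, M.toCoxeterSystem.IsReduced (List.ofFn fun j : Fin k => s j))
    (st : ℕ → Q) (mem : Q → B → Prop)
    (h0 : ∀ t, mem (st 0) t → t = s 0)
    (hstep : ∀ j, ¬ mem (st j) (s (j + 1)) → ∀ t, mem (st (j + 1)) t →
      t = s (j + 1) ∨ (mem (st j) t ∧ M t (s (j + 1)) = 2)) :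
    ∀ j, ¬ mem (st j) (s (j + 1)) := by
  set cs := M.toCoxeterSystem
  let w : ℕ → M.Group := fun k => cs.wordProd (List.ofFn fun j : Fin k => s j)
  have hw : ∀ k, w (k + 1) = w k * cs.simple (s k) := by
    intro k
    simp only [w]
    rw [List.ofFn_succ', List.concat_eq_append, cs.wordProd_append, cs.wordProd_singleton]
    simp
  have hl : ∀ k, cs.length (w k) = k := by
    intro k
    have := hred k
    unfold CoxeterSystem.IsReduced at this
    simpa using this
  have key : ∀ j, (∀ t, mem (st j) t → ∃ w', w (j + 1) = w' * cs.simple t ∧ cs.length w' ≤ j) →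
      ¬ mem (st j) (s (j + 1)) := by
    intro j h hm
    obtain ⟨w', h1, h2⟩ := h _ hm
    have h3 := hl (j + 2)
    rw [hw, h1, mul_assoc, cs.simple_mul_simple_self, mul_one] at h3
    omega
  have main : ∀ j, ∀ t, mem (st j) t → ∃ w', w (j + 1) = w' * cs.simple t ∧ cs.length w' ≤ j := by
    intro j
    induction j with
    | zero =>
      intro t ht
      exact ⟨w 0, by rw [hw, h0 t ht], (hl 0).le⟩
    | succ j ih =>
      intro t ht
      rcases hstep j (key j ih) t ht with rfl | ⟨h1, h2⟩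
      · exact ⟨w (j + 1), hw _, (hl _).le⟩
      · obtain ⟨w', e1, e2⟩ := ih t h1
        refine ⟨w' * cs.simple (s (j + 1)), ?_, ?_⟩
        · have hc := cs.simple_mul_simple_pow t (s (j + 1))
          rw [h2, pow_two] at hc
          have hc' : cs.simple t * cs.simple (s (j + 1)) = cs.simple (s (j + 1)) * cs.simple t := by
            have := eq_inv_of_mul_eq_one_left hc
            nth_rewrite 1 [this]
            rw [_root_.mul_inv_rev, cs.inv_simple, cs.inv_simple]
          rw [hw, e1, mul_assoc, hc', mul_assoc]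
        · have := cs.length_mul_le w' (cs.simple (s (j + 1)))
          rw [cs.length_simple] at this
          omega
  exact fun j => key j (main j)

/-- integer matrices cast to the reals -/
def cz {m n : Type} (A : Matrix m n ℤ) : Matrix m n ℝ := A.map (Int.cast)

theorem cz_mul {m n p : Type} [Fintype n] (A : Matrix m n ℤ) (B : Matrix n p ℤ) :
    cz (A * B) = cz A * cz B := by
  ext i j
  simp [cz, Matrix.mul_apply]

theorem cert_cast {κ : Type} [Fintype κ] {T : Matrix ι ι ℤ} {G' G : Matrix ι κ ℤ}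
    {A : Matrix κ κ ℤ} {lam : ℤ}
    (h : ∀ i j, lam * (∑ l, T i l * G' l j) = ∑ l, G i l * A l j) :
    (lam : ℝ) • (cz T * cz G') = cz G * cz A := by
  ext i j
  have := congrArg (Int.cast : ℤ → ℝ) (h i j)
  simpa [cz, Matrix.mul_apply] using this

theorem mem_cone_of_cert {κ : Type} [Fintype κ] {G : Matrix ι κ ℤ} {v : ι → ℤ} {x : κ → ℤ}
    {lam : ℤ} (hl : 0 < lam) (hx : ∀ l, 0 ≤ x l)
    (h : ∀ i, lam * v i = ∑ l, G i l * x l) : (fun i => (v i : ℝ)) ∈ cone (cz G) := by
  have hl' : (0 : ℝ) < lam := by exact_mod_cast hl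
  refine ⟨fun l => (lam : ℝ)⁻¹ * x l, fun l => ?_, ?_⟩
  · have : (0 : ℝ) ≤ x l := by exact_mod_cast hx l
    positivity
  · funext i
    have := congrArg (Int.cast : ℤ → ℝ) (h i)
    push_cast at this
    simp only [mulVec, dotProduct, cz, map_apply]
    have e : ∑ l, (G i l : ℝ) * ((lam : ℝ)⁻¹ * x l) = (lam : ℝ)⁻¹ * ∑ l, (G i l : ℝ) * x l := by
      rw [Finset.mul_sum]
      exact Finset.sum_congr rfl fun l _ => by ring
    rw [e, ← this]
    field_simp

theorem maps_top_of_int {κ : Type} [Fintype κ] {T : Matrix ι ι ℤ} {G : Matrix ι κ ℤ} {c : ℤ}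
    (hc : 0 ≤ c)
    (h : ∀ i l, |∑ m, T i m * G m l| ≤ c * ∑ i', ∑ m, T i' m * G m l)
    (h' : ∀ l, 0 ≤ ∑ i', ∑ m, T i' m * G m l) :
    Maps (cz T) (cone (cz G)) (topCone (c : ℝ)) := by
  apply maps_top (by exact_mod_cast hc)
  · intro i l
    have := (Int.cast_le (R := ℝ)).2 (h i l)
    simpa [cz, Matrix.mul_apply] using this
  · intro l
    have := (Int.cast_le (R := ℝ)).2 (h' l)
    simpa [cz, Matrix.mul_apply] using this

theorem inj_of_invol {T : Matrix ι ι ℤ} (h : T * T = 1) (v : ι → ℝ) (hv : cz T *ᵥ v = 0) :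
    v = 0 := by
  have : cz T *ᵥ (cz T *ᵥ v) = v := by
    rw [mulVec_mulVec, ← cz_mul, h]
    have : cz (1 : Matrix ι ι ℤ) = 1 := by
      ext i j
      by_cases hij : i = j <;> simp [cz, Matrix.one_apply, hij]
    rw [this, one_mulVec]
  rw [← this, hv, mulVec_zero]

theorem cz_single (T : Matrix ι ι ℤ) (a : ι) :
    cz T *ᵥ Pi.single a 1 = fun i => (T i a : ℝ) := by
  funext i
  simp [cz, mulVec, dotProduct, Pi.single_apply]

end Pool.Agent.H649Z.Cox
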